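import Mathlib

/-!
# String C-groups of rank 4: definitions and the reduction of the intersection property
-/

set_option autoImplicit false

namespace Pool.Agent.Lib.MP_4f2bc5_co

open Subgroup

/-- `r 0, r 1, r 2, r 3` are the distinguished generators of a string C-group: involutions
generating the group, with `(r i * r j)^2 = 1` for `|i - j| >= 2` and the intersection property. -/
structure IsStringC {G : Type} [Group G] (r : Fin 4 → G) : Prop where
  generate : closure (Set.range r) = ⊤
  involution : ∀ i, r i ≠ 1 ∧ r i ^ 2 = 1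
  string : ∀ i j : Fin 4, (i : ℕ) + 2 ≤ (j : ℕ) → (r i * r j) ^ 2 = 1
  inter : ∀ I J : Set (Fin 4), closure (r '' I) ⊓ closure (r '' J) = closure (r '' (I ∩ J))

/-- the Schlaefli type -/
def HasType {G : Type} [Group G] (r : Fin 4 → G) (p q s : ℕ) : Prop :=
  orderOf (r 0 * r 1) = p ∧ orderOf (r 1 * r 2) = q ∧ orderOf (r 2 * r 3) = s

/-- self-duality: an automorphism reverses the list of generators -/
def IsSelfDual {G : Type} [Group G] (r : Fin 4 → G) : Prop :=
  ∃ δ : G ≃* G, ∀ i, δ (r i) = r i.rev

section General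

variable {G : Type} [Group G]

theorem mem_closure_one {a g : G} (ha : a * a = 1) (hg : g ∈ closure ({a} : Set G)) :
    g = 1 ∨ g = a := by
  induction hg using closure_induction_left with
  | one => exact Or.inl rfl
  | mul_left x hx y hy ih =>
    rw [Set.mem_singleton_iff] at hx
    subst hx
    rcases ih with h | h
    · right; rw [h, mul_one]
    · left; rw [h, ha]
  | inv_mul_cancel x hx y hy ih =>
    rw [Set.mem_singleton_iff] at hx
    subst hx
    have hi : x⁻¹ = x := inv_eq_of_mul_eq_one_left ha
    rcases ih with h | h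
    · right; rw [h, mul_one, hi]
    · left; rw [h, hi, ha]

/-- adding a commuting involution -/
theorem mem_closure_insert {S : Set G} {t g : G} (ht : t * t = 1)
    (hS : ∀ s ∈ S, s * t = t * s) (hg : g ∈ closure (insert t S)) :
    g ∈ closure S ∨ g * t ∈ closure S := by
  have hcomm : ∀ h ∈ closure S, h * t = t * h := by
    intro h hh
    have h1 : h ∈ Subgroup.centralizer ({t} : Set G) := by
      have : closure S ≤ Subgroup.centralizer ({t} : Set G) := by
        rw [closure_le]
        intro s hs
        rw [SetLike.mem_coe, Subgroup.mem_centralizer_iff]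
        intro u hu
        rw [Set.mem_singleton_iff] at hu
        subst hu
        exact (hS s hs).symm
      exact this hh
    rw [Subgroup.mem_centralizer_iff] at h1
    exact (h1 t rfl).symm
  have hti : t⁻¹ = t := inv_eq_of_mul_eq_one_left ht
  have key : ∀ y, (y ∈ closure S ∨ y * t ∈ closure S) →
      ((t * y) ∈ closure S ∨ (t * y) * t ∈ closure S) := by
    intro y hy
    rcases hy with h | h
    · right
      rw [← hcomm y h, mul_assoc, ht, mul_one]
      exact h
    · left
      have h2 := hcomm _ h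
      have h3 : t * y = y * t := by
        have : t * (y * t) * t = y * t * t * t := by rw [← h2]
        simp only [mul_assoc, ht, mul_one] at this
        exact this
      rw [h3]
      exact h
  induction hg using closure_induction_left with
  | one => exact Or.inl (one_mem _)
  | mul_left x hx y hy ih =>
    rcases Set.mem_insert_iff.1 hx with h | h
    · subst h
      exact key y ih
    · rcases ih with h2 | h2
      · exact Or.inl (mul_mem (subset_closure h) h2)
      · right
        rw [mul_assoc]
        exact mul_mem (subset_closure h) h2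
  | inv_mul_cancel x hx y hy ih =>
    rcases Set.mem_insert_iff.1 hx with h | h
    · subst h
      rw [hti]
      exact key y ih
    · rcases ih with h2 | h2
      · exact Or.inl (mul_mem (inv_mem (subset_closure h)) h2)
      · right
        rw [mul_assoc]
        exact mul_mem (inv_mem (subset_closure h)) h2

/-- normal form in a dihedral group -/
theorem mem_closure_two {a b g : G} (ha : a * a = 1) (hb : b * b = 1)
    (hg : g ∈ closure ({a, b} : Set G)) : ∃ n : ℤ, g = (a * b) ^ n ∨ g = (a * b) ^ n * a := by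
  have hai : a⁻¹ = a := inv_eq_of_mul_eq_one_left ha
  have hbi : b⁻¹ = b := inv_eq_of_mul_eq_one_left hb
  have hab : b * a = (a * b)⁻¹ := by rw [mul_inv_rev, hai, hbi]
  have hconj : ∀ n : ℤ, a * (a * b) ^ n = (a * b) ^ (-n) * a := by
    intro n
    have h1 : a * (a * b) * a⁻¹ = (a * b)⁻¹ := by
      rw [mul_inv_rev, hai, hbi, ← mul_assoc, ha, one_mul]
    have h2 : a * (a * b) ^ n * a⁻¹ = ((a * b)⁻¹) ^ n := by
      rw [← h1, conj_zpow]
    rw [inv_zpow, ← zpow_neg] at h2
    rw [← h2, inv_mul_cancel_right]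
  have ka : ∀ y, (∃ n : ℤ, y = (a * b) ^ n ∨ y = (a * b) ^ n * a) →
      ∃ n : ℤ, a * y = (a * b) ^ n ∨ a * y = (a * b) ^ n * a := by
    rintro y ⟨n, h | h⟩
    · exact ⟨-n, Or.inr (by rw [h, hconj])⟩
    · refine ⟨-n, Or.inl ?_⟩
      rw [h, ← mul_assoc, hconj, mul_assoc, ha, mul_one]
  have kb : ∀ y, (∃ n : ℤ, y = (a * b) ^ n ∨ y = (a * b) ^ n * a) →
      ∃ n : ℤ, b * y = (a * b) ^ n ∨ b * y = (a * b) ^ n * a := by
    intro y hy
    obtain ⟨n, h⟩ := ka y hy
    have hb2 : b * y = (a * b)⁻¹ * (a * y) := by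
      rw [← hab]
      simp only [mul_assoc]
      rw [← mul_assoc a a y, ha, one_mul]
    rcases h with h | h
    · refine ⟨-1 + n, Or.inl ?_⟩
      rw [hb2, h, zpow_add, zpow_neg_one]
    · refine ⟨-1 + n, Or.inr ?_⟩
      rw [hb2, h, zpow_add, zpow_neg_one, mul_assoc]
  induction hg using closure_induction_left with
  | one => exact ⟨0, Or.inl (by simp)⟩
  | mul_left x hx y hy ih =>
    rcases Set.mem_insert_iff.1 hx with h | h
    · subst h; exact ka y ih
    · rw [Set.mem_singleton_iff] at h; subst h; exact kb y ih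
  | inv_mul_cancel x hx y hy ih =>
    rcases Set.mem_insert_iff.1 hx with h | h
    · subst h; rw [hai]; exact ka y ih
    · rw [Set.mem_singleton_iff] at h; subst h; rw [hbi]; exact kb y ih

end General

section Inter

variable {G : Type} [Group G]

/-- the data needed to check the intersection property -/
structure Core (r : Fin 4 → G) : Prop where
  sq : ∀ i, r i * r i = 1
  ne : ∀ i, r i ≠ 1
  c02 : r 0 * r 2 = r 2 * r 0
  c03 : r 0 * r 3 = r 3 * r 0
  c13 : r 1 * r 3 = r 3 * r 1
  n01 : r 0 ≠ r 1
  n12 : r 1 ≠ r 2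
  n23 : r 2 ≠ r 3
  mid : ∀ g, g ∈ closure ({r 0, r 1, r 2} : Set G) → g ∈ closure ({r 1, r 2, r 3} : Set G) →
    g ∈ closure ({r 1, r 2} : Set G)
  left : ∀ g, g ∈ closure ({r 0, r 1} : Set G) → g ∈ closure ({r 1, r 2} : Set G) →
    g = 1 ∨ g = r 1
  right : ∀ g, g ∈ closure ({r 2, r 3} : Set G) → g ∈ closure ({r 1, r 2} : Set G) →
    g = 1 ∨ g = r 2

theorem Core.inter {r : Fin 4 → G} (h : Core r) (I J : Set (Fin 4)) :
    closure (r '' I) ⊓ closure (r '' J) = closure (r '' (I ∩ J)) := by
  have m : ∀ (S T : Set G), S ⊆ T → ∀ g, g ∈ closure S → g ∈ closure T :=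
    fun S T hST g hg => closure_mono hST hg
  -- the two-generated parabolic subgroups
  have r3M3 : r 3 ∉ closure ({r 0, r 1, r 2} : Set G) := by
    intro h3
    have h4 := h.mid _ h3 (subset_closure (by simp))
    rcases h.right _ (subset_closure (by simp)) h4 with h5 | h5
    · exact h.ne 3 h5
    · exact h.n23 h5.symm
  have r0M0 : r 0 ∉ closure ({r 1, r 2, r 3} : Set G) := by
    intro h3
    have h4 := h.mid _ (subset_closure (by simp)) h3
    rcases h.left _ (subset_closure (by simp)) h4 with h5 | h5
    · exact h.ne 0 h5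
    · exact h.n01 h5
  have F01 : ∀ g, g ∈ closure ({r 0, r 1, r 2} : Set G) → g ∈ closure ({r 0, r 1, r 3} : Set G) →
      g ∈ closure ({r 0, r 1} : Set G) := by
    intro g h1 h2
    have h3 : ({r 0, r 1, r 3} : Set G) = insert (r 3) {r 0, r 1} := by
      ext x; simp only [Set.mem_insert_iff, Set.mem_singleton_iff]; tauto
    rw [h3] at h2
    rcases mem_closure_insert (h.sq 3) (by
      intro s hs
      rcases hs with rfl | hs
      · exact h.c03
      · rw [Set.mem_singleton_iff] at hs; subst hs; exact h.c13) h2 with h4 | h4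
    · exact h4
    · exfalso
      apply r3M3
      have h5 : g * r 3 ∈ closure ({r 0, r 1, r 2} : Set G) :=
        m _ _ (by intro x hx; simp only [Set.mem_insert_iff, Set.mem_singleton_iff] at hx ⊢; tauto) _ h4
      have h6 := mul_mem (inv_mem h1) h5
      rwa [inv_mul_cancel_left] at h6
  have F23 : ∀ g, g ∈ closure ({r 1, r 2, r 3} : Set G) → g ∈ closure ({r 0, r 2, r 3} : Set G) →
      g ∈ closure ({r 2, r 3} : Set G) := by
    intro g h1 h2
    rcases mem_closure_insert (h.sq 0) (by
      intro s hs
      rcases hs with rfl | hs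
      · exact h.c02.symm
      · rw [Set.mem_singleton_iff] at hs; subst hs; exact h.c03.symm) h2 with h4 | h4
    · exact h4
    · exfalso
      apply r0M0
      have h5 : g * r 0 ∈ closure ({r 1, r 2, r 3} : Set G) :=
        m _ _ (by intro x hx; simp only [Set.mem_insert_iff, Set.mem_singleton_iff] at hx ⊢; tauto) _ h4
      have h6 := mul_mem (inv_mem h1) h5
      rwa [inv_mul_cancel_left] at h6
  have F12 := h.mid
  have F02 : ∀ g, g ∈ closure ({r 0, r 1, r 2} : Set G) → g ∈ closure ({r 0, r 2, r 3} : Set G) →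
      g ∈ closure ({r 0, r 2} : Set G) := by
    intro g h1 h2
    have key : ∀ b, b ∈ closure ({r 0, r 1, r 2} : Set G) → b ∈ closure ({r 2, r 3} : Set G) →
        b ∈ closure ({r 0, r 2} : Set G) := by
      intro b hb1 hb2
      have h5 := h.mid b hb1 (m _ _ (by
        intro x hx; simp only [Set.mem_insert_iff, Set.mem_singleton_iff] at hx ⊢; tauto) _ hb2)
      rcases h.right b hb2 h5 with h6 | h6
      · rw [h6]; exact one_mem _
      · rw [h6]; exact subset_closure (by simp)
    rcases mem_closure_insert (h.sq 0) (by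
      intro s hs
      rcases hs with rfl | hs
      · exact h.c02.symm
      · rw [Set.mem_singleton_iff] at hs; subst hs; exact h.c03.symm) h2 with h4 | h4
    · exact key g h1 h4
    · have h5 := key (g * r 0) (mul_mem h1 (subset_closure (by simp))) h4
      have h6 := mul_mem h5 (subset_closure (show r 0 ∈ ({r 0, r 2} : Set G) by simp))
      rwa [mul_assoc, h.sq 0, mul_one] at h6
  have F13 : ∀ g, g ∈ closure ({r 1, r 2, r 3} : Set G) → g ∈ closure ({r 0, r 1, r 3} : Set G) →
      g ∈ closure ({r 1, r 3} : Set G) := by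
    intro g h1 h2
    have key : ∀ b, b ∈ closure ({r 1, r 2, r 3} : Set G) → b ∈ closure ({r 0, r 1} : Set G) →
        b ∈ closure ({r 1, r 3} : Set G) := by
      intro b hb1 hb2
      have h5 := h.mid b (m _ _ (by
        intro x hx; simp only [Set.mem_insert_iff, Set.mem_singleton_iff] at hx ⊢; tauto) _ hb2) hb1
      rcases h.left b hb2 h5 with h6 | h6
      · rw [h6]; exact one_mem _
      · rw [h6]; exact subset_closure (by simp)
    have h3 : ({r 0, r 1, r 3} : Set G) = insert (r 3) {r 0, r 1} := by
      ext x; simp only [Set.mem_insert_iff, Set.mem_singleton_iff]; tauto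
    rw [h3] at h2
    rcases mem_closure_insert (h.sq 3) (by
      intro s hs
      rcases hs with rfl | hs
      · exact h.c03
      · rw [Set.mem_singleton_iff] at hs; subst hs; exact h.c13) h2 with h4 | h4
    · exact key g h1 h4
    · have h5 := key (g * r 3) (mul_mem h1 (subset_closure (by simp))) h4
      have h6 := mul_mem h5 (subset_closure (show r 3 ∈ ({r 1, r 3} : Set G) by simp))
      rwa [mul_assoc, h.sq 3, mul_one] at h6
  have X : ∀ c, c ∈ closure ({r 0, r 1} : Set G) → c ∈ closure ({r 2, r 3} : Set G) → c = 1 := by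
    intro c h1 h2
    have h5 := h.mid c (m _ _ (by
        intro x hx; simp only [Set.mem_insert_iff, Set.mem_singleton_iff] at hx ⊢; tauto) _ h1)
      (m _ _ (by
        intro x hx; simp only [Set.mem_insert_iff, Set.mem_singleton_iff] at hx ⊢; tauto) _ h2)
    rcases h.left c h1 h5 with h6 | h6
    · exact h6
    · rcases h.right c h2 h5 with h7 | h7
      · exact h7
      · exact absurd (h6.symm.trans h7) h.n12
  have F03 : ∀ g, g ∈ closure ({r 0, r 2, r 3} : Set G) → g ∈ closure ({r 0, r 1, r 3} : Set G) →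
      g ∈ closure ({r 0, r 3} : Set G) := by
    intro g h2 h1
    have h3 : ({r 0, r 1, r 3} : Set G) = insert (r 3) {r 0, r 1} := by
      ext x; simp only [Set.mem_insert_iff, Set.mem_singleton_iff]; tauto
    rw [h3] at h1
    have e0 : r 0 ∈ closure ({r 0, r 3} : Set G) := subset_closure (by simp)
    have e3 : r 3 ∈ closure ({r 0, r 3} : Set G) := subset_closure (by simp)
    have e0' : r 0 ∈ closure ({r 0, r 1} : Set G) := subset_closure (by simp)
    have e3' : r 3 ∈ closure ({r 2, r 3} : Set G) := subset_closure (by simp)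
    have c1 : ∀ s ∈ ({r 0, r 1} : Set G), s * r 3 = r 3 * s := by
      intro s hs
      rcases hs with rfl | hs
      · exact h.c03
      · rw [Set.mem_singleton_iff] at hs; subst hs; exact h.c13
    have c2 : ∀ s ∈ ({r 2, r 3} : Set G), s * r 0 = r 0 * s := by
      intro s hs
      rcases hs with rfl | hs
      · exact h.c02.symm
      · rw [Set.mem_singleton_iff] at hs; subst hs; exact h.c03.symm
    rcases mem_closure_insert (h.sq 3) c1 h1 with h4 | h4 <;>
    rcases mem_closure_insert (h.sq 0) c2 h2 with h5 | h5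
    · rw [X g h4 h5]; exact one_mem _
    · have h6 := X (g * r 0) (mul_mem h4 e0') h5
      have h7 : g = r 0 := by
        have := congrArg (· * r 0) h6
        simp only [mul_assoc, h.sq 0, mul_one, one_mul] at this
        exact this
      rw [h7]; exact e0
    · have h6 := X (g * r 3) h4 (mul_mem h5 e3')
      have h7 : g = r 3 := by
        have := congrArg (· * r 3) h6
        simp only [mul_assoc, h.sq 3, mul_one, one_mul] at this
        exact this
      rw [h7]; exact e3
    · have h6 := X (g * r 0 * r 3) (by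
        rw [mul_assoc, h.c03, ← mul_assoc]
        exact mul_mem h4 e0') (mul_mem h5 e3')
      have h7 : g = r 3 * r 0 := by
        have := congrArg (· * (r 3 * r 0)) h6
        simp only [one_mul] at this
        rw [← this]
        calc g = g * (r 0 * r 0) := by rw [h.sq 0, mul_one]
          _ = g * r 0 * (r 3 * r 3) * r 0 := by rw [h.sq 3, mul_one, mul_assoc]
          _ = g * r 0 * r 3 * (r 3 * r 0) := by simp only [mul_assoc]
      rw [h7]; exact mul_mem e3 e0
  have F0 : ∀ g, g ∈ closure ({r 0, r 1} : Set G) → g ∈ closure ({r 0, r 2} : Set G) →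
      g ∈ closure ({r 0} : Set G) := by
    intro g h1 h2
    have h3 : ({r 0, r 2} : Set G) = insert (r 2) {r 0} := by
      ext x; simp only [Set.mem_insert_iff, Set.mem_singleton_iff]; tauto
    rw [h3] at h2
    rcases mem_closure_insert (h.sq 2) (by
      intro s hs
      rw [Set.mem_singleton_iff] at hs; subst hs; exact h.c02) h2 with h4 | h4
    · exact h4
    · exfalso
      have h5 : r 2 ∈ closure ({r 0, r 1} : Set G) := by
        have h6 : g * r 2 ∈ closure ({r 0, r 1} : Set G) := m _ _ (by
          intro x hx; simp only [Set.mem_insert_iff, Set.mem_singleton_iff] at hx ⊢; tauto) _ h4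
        have h7 := mul_mem (inv_mem h1) h6
        rwa [inv_mul_cancel_left] at h7
      rcases h.left _ h5 (subset_closure (by simp)) with h6 | h6
      · exact h.ne 2 h6
      · exact h.n12 h6.symm
  have F3 : ∀ g, g ∈ closure ({r 2, r 3} : Set G) → g ∈ closure ({r 1, r 3} : Set G) →
      g ∈ closure ({r 3} : Set G) := by
    intro g h1 h2
    rcases mem_closure_insert (h.sq 1) (by
      intro s hs
      rw [Set.mem_singleton_iff] at hs; subst hs; exact h.c13.symm) h2 with h4 | h4
    · exact h4
    · exfalso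
      have h5 : r 1 ∈ closure ({r 2, r 3} : Set G) := by
        have h6 : g * r 1 ∈ closure ({r 2, r 3} : Set G) := m _ _ (by
          intro x hx; simp only [Set.mem_insert_iff, Set.mem_singleton_iff] at hx ⊢; tauto) _ h4
        have h7 := mul_mem (inv_mem h1) h6
        rwa [inv_mul_cancel_left] at h7
      rcases h.right _ h5 (subset_closure (by simp)) with h6 | h6
      · exact h.ne 1 h6
      · exact h.n12 h6
  have F1 : ∀ g, g ∈ closure ({r 0, r 1} : Set G) → g ∈ closure ({r 1, r 2} : Set G) →
      g ∈ closure ({r 1} : Set G) := by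
    intro g h1 h2
    rcases h.left g h1 h2 with h3 | h3
    · rw [h3]; exact one_mem _
    · rw [h3]; exact subset_closure rfl
  have F2 : ∀ g, g ∈ closure ({r 2, r 3} : Set G) → g ∈ closure ({r 1, r 2} : Set G) →
      g ∈ closure ({r 2} : Set G) := by
    intro g h1 h2
    rcases h.right g h1 h2 with h3 | h3
    · rw [h3]; exact one_mem _
    · rw [h3]; exact subset_closure rfl
  -- membership in the maximal parabolic subgroups
  have M0 : ∀ (K : Set (Fin 4)) g, 0 ∉ K → g ∈ closure (r '' K) →
      g ∈ closure ({r 1, r 2, r 3} : Set G) := by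
    intro K g h0 hg
    refine m _ _ ?_ g hg
    rintro _ ⟨i, hi, rfl⟩
    fin_cases i
    · exact absurd hi h0
    · simp
    · simp
    · simp
  have M1 : ∀ (K : Set (Fin 4)) g, 1 ∉ K → g ∈ closure (r '' K) →
      g ∈ closure ({r 0, r 2, r 3} : Set G) := by
    intro K g h0 hg
    refine m _ _ ?_ g hg
    rintro _ ⟨i, hi, rfl⟩
    fin_cases i
    · simp
    · exact absurd hi h0
    · simp
    · simp
  have M2 : ∀ (K : Set (Fin 4)) g, 2 ∉ K → g ∈ closure (r '' K) →
      g ∈ closure ({r 0, r 1, r 3} : Set G) := by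
    intro K g h0 hg
    refine m _ _ ?_ g hg
    rintro _ ⟨i, hi, rfl⟩
    fin_cases i
    · simp
    · simp
    · exact absurd hi h0
    · simp
  have M3 : ∀ (K : Set (Fin 4)) g, 3 ∉ K → g ∈ closure (r '' K) →
      g ∈ closure ({r 0, r 1, r 2} : Set G) := by
    intro K g h0 hg
    refine m _ _ ?_ g hg
    rintro _ ⟨i, hi, rfl⟩
    fin_cases i
    · simp
    · simp
    · simp
    · exact absurd hi h0
  apply le_antisymm
  · rintro g ⟨hI, hJ⟩
    have hI' : g ∈ closure (r '' I) := hI
    have hJ' : g ∈ closure (r '' J) := hJ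
    have N0 : 0 ∉ I ∩ J → g ∈ closure ({r 1, r 2, r 3} : Set G) := by
      intro h0
      by_cases hh : (0 : Fin 4) ∈ I
      · exact M0 J g (fun h1 => h0 ⟨hh, h1⟩) hJ'
      · exact M0 I g hh hI'
    have N1 : 1 ∉ I ∩ J → g ∈ closure ({r 0, r 2, r 3} : Set G) := by
      intro h0
      by_cases hh : (1 : Fin 4) ∈ I
      · exact M1 J g (fun h1 => h0 ⟨hh, h1⟩) hJ'
      · exact M1 I g hh hI'
    have N2 : 2 ∉ I ∩ J → g ∈ closure ({r 0, r 1, r 3} : Set G) := by
      intro h0
      by_cases hh : (2 : Fin 4) ∈ I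
      · exact M2 J g (fun h1 => h0 ⟨hh, h1⟩) hJ'
      · exact M2 I g hh hI'
    have N3 : 3 ∉ I ∩ J → g ∈ closure ({r 0, r 1, r 2} : Set G) := by
      intro h0
      by_cases hh : (3 : Fin 4) ∈ I
      · exact M3 J g (fun h1 => h0 ⟨hh, h1⟩) hJ'
      · exact M3 I g hh hI'
    have fin : ∀ S : Set G, g ∈ closure S → S ⊆ r '' (I ∩ J) → g ∈ closure (r '' (I ∩ J)) :=
      fun S hS hsub => m _ _ hsub g hS
    by_cases k0 : (0 : Fin 4) ∈ I ∩ J <;> by_cases k1 : (1 : Fin 4) ∈ I ∩ J <;>
    by_cases k2 : (2 : Fin 4) ∈ I ∩ J <;> by_cases k3 : (3 : Fin 4) ∈ I ∩ J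
    · -- 0123
      refine fin (r '' I) hI' ?_
      apply Set.image_mono
      intro i _
      fin_cases i
      · exact k0
      · exact k1
      · exact k2
      · exact k3
    · -- 012
      refine fin _ (N3 k3) ?_
      rintro x (rfl | rfl | hx)
      · exact ⟨0, k0, rfl⟩
      · exact ⟨1, k1, rfl⟩
      · rw [Set.mem_singleton_iff] at hx; exact ⟨2, k2, hx.symm⟩
    · -- 013
      refine fin _ (N2 k2) ?_
      rintro x (rfl | rfl | hx)
      · exact ⟨0, k0, rfl⟩
      · exact ⟨1, k1, rfl⟩
      · rw [Set.mem_singleton_iff] at hx; exact ⟨3, k3, hx.symm⟩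
    · -- 01
      refine fin _ (F01 g (N3 k3) (N2 k2)) ?_
      rintro x (rfl | hx)
      · exact ⟨0, k0, rfl⟩
      · rw [Set.mem_singleton_iff] at hx; exact ⟨1, k1, hx.symm⟩
    · -- 023
      refine fin _ (N1 k1) ?_
      rintro x (rfl | rfl | hx)
      · exact ⟨0, k0, rfl⟩
      · exact ⟨2, k2, rfl⟩
      · rw [Set.mem_singleton_iff] at hx; exact ⟨3, k3, hx.symm⟩
    · -- 02
      refine fin _ (F02 g (N3 k3) (N1 k1)) ?_
      rintro x (rfl | hx)
      · exact ⟨0, k0, rfl⟩
      · rw [Set.mem_singleton_iff] at hx; exact ⟨2, k2, hx.symm⟩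
    · -- 03
      refine fin _ (F03 g (N1 k1) (N2 k2)) ?_
      rintro x (rfl | hx)
      · exact ⟨0, k0, rfl⟩
      · rw [Set.mem_singleton_iff] at hx; exact ⟨3, k3, hx.symm⟩
    · -- 0
      refine fin _ (F0 g (F01 g (N3 k3) (N2 k2)) (F02 g (N3 k3) (N1 k1))) ?_
      rintro x hx
      rw [Set.mem_singleton_iff] at hx; exact ⟨0, k0, hx.symm⟩
    · -- 123
      refine fin _ (N0 k0) ?_
      rintro x (rfl | rfl | hx)
      · exact ⟨1, k1, rfl⟩
      · exact ⟨2, k2, rfl⟩
      · rw [Set.mem_singleton_iff] at hx; exact ⟨3, k3, hx.symm⟩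
    · -- 12
      refine fin _ (F12 g (N3 k3) (N0 k0)) ?_
      rintro x (rfl | hx)
      · exact ⟨1, k1, rfl⟩
      · rw [Set.mem_singleton_iff] at hx; exact ⟨2, k2, hx.symm⟩
    · -- 13
      refine fin _ (F13 g (N0 k0) (N2 k2)) ?_
      rintro x (rfl | hx)
      · exact ⟨1, k1, rfl⟩
      · rw [Set.mem_singleton_iff] at hx; exact ⟨3, k3, hx.symm⟩
    · -- 1
      refine fin _ (F1 g (F01 g (N3 k3) (N2 k2)) (F12 g (N3 k3) (N0 k0))) ?_
      rintro x hx
      rw [Set.mem_singleton_iff] at hx; exact ⟨1, k1, hx.symm⟩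
    · -- 23
      refine fin _ (F23 g (N0 k0) (N1 k1)) ?_
      rintro x (rfl | hx)
      · exact ⟨2, k2, rfl⟩
      · rw [Set.mem_singleton_iff] at hx; exact ⟨3, k3, hx.symm⟩
    · -- 2
      refine fin _ (F2 g (F23 g (N0 k0) (N1 k1)) (F12 g (N3 k3) (N0 k0))) ?_
      rintro x hx
      rw [Set.mem_singleton_iff] at hx; exact ⟨2, k2, hx.symm⟩
    · -- 3
      refine fin _ (F3 g (F23 g (N0 k0) (N1 k1)) (F13 g (N0 k0) (N2 k2))) ?_
      rintro x hx
      rw [Set.mem_singleton_iff] at hx; exact ⟨3, k3, hx.symm⟩
    · -- empty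
      rw [X g (F01 g (N3 k3) (N2 k2)) (F23 g (N0 k0) (N1 k1))]
      exact one_mem _
  · exact le_inf (closure_mono (Set.image_mono Set.inter_subset_left))
      (closure_mono (Set.image_mono Set.inter_subset_right))

end Inter

/-- from an ambient finite group to the generated subgroup -/
theorem Core.exists_stringC {H : Type} [Group H] [Finite H] {r : Fin 4 → H} (h : Core r)
    (δ : H ≃* H) (hδ : ∀ i, δ (r i) = r i.rev) {p q : ℕ} (hp : orderOf (r 0 * r 1) = p)
    (hq : orderOf (r 1 * r 2) = q) :
    ∃ (G : Type) (_ : Group G) (_ : Finite G) (s : Fin 4 → G),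
      IsStringC s ∧ HasType s p q p ∧ IsSelfDual s := by
  have hr : ∀ i, r i ∈ closure (Set.range r) := fun i => subset_closure ⟨i, rfl⟩
  refine ⟨closure (Set.range r), inferInstance, inferInstance, fun i => ⟨r i, hr i⟩, ?_, ?_, ?_⟩
  · have himg : ∀ I : Set (Fin 4), (closure ((fun i => (⟨r i, hr i⟩ : closure (Set.range r))) '' I)).map
        (closure (Set.range r)).subtype = closure (r '' I) := by
      intro I
      rw [MonoidHom.map_closure, Set.image_image]
      rfl
    refine ⟨?_, ?_, ?_, ?_⟩
    · apply Subgroup.map_injective (Subgroup.subtype_injective (closure (Set.range r)))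
      have h0 := himg Set.univ
      rw [Set.image_univ, Set.image_univ] at h0
      rw [h0, ← MonoidHom.range_eq_map, Subgroup.range_subtype]
    · intro i
      refine ⟨?_, ?_⟩
      · intro h1
        exact h.ne i (congrArg Subtype.val h1)
      · apply Subtype.ext
        change r i ^ 2 = 1
        rw [pow_two, h.sq i]
    · intro i j hij
      apply Subtype.ext
      change (r i * r j) ^ 2 = 1
      have hc : r i * r j = r j * r i := by
        fin_cases i <;> fin_cases j <;> first
          | exact h.c02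
          | exact h.c03
          | exact h.c13
          | (exfalso; revert hij; decide)
      rw [pow_two]
      calc r i * r j * (r i * r j) = r i * r j * (r j * r i) := by rw [← hc]
        _ = r i * (r j * r j) * r i := by simp only [mul_assoc]
        _ = 1 := by rw [h.sq j, mul_one, h.sq i]
    · intro I J
      apply Subgroup.map_injective (Subgroup.subtype_injective (closure (Set.range r)))
      rw [Subgroup.map_inf _ _ _ (Subgroup.subtype_injective _), himg, himg, himg]
      exact h.inter I J
  · have e : ∀ i j : Fin 4, orderOf ((⟨r i, hr i⟩ : closure (Set.range r)) * ⟨r j, hr j⟩) =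
        orderOf (r i * r j) := by
      intro i j
      rw [← Subgroup.orderOf_coe]
      rfl
    refine ⟨?_, ?_, ?_⟩
    · rw [e, hp]
    · rw [e, hq]
    · rw [e, ← hp]
      have h1 : δ (r 0 * r 1) = (r 2 * r 3)⁻¹ := by
        rw [map_mul, hδ, hδ, mul_inv_rev]
        have i2 : (r 2)⁻¹ = r 2 := inv_eq_of_mul_eq_one_left (h.sq 2)
        have i3 : (r 3)⁻¹ = r 3 := inv_eq_of_mul_eq_one_left (h.sq 3)
        rw [i2, i3]
        rfl
      rw [← orderOf_inv (r 2 * r 3), ← h1]
      exact orderOf_injective δ.toMonoidHom δ.injective _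
  · have hmap : (closure (Set.range r)).map δ.toMonoidHom = closure (Set.range r) := by
      rw [MonoidHom.map_closure]
      congr 1
      ext x
      constructor
      · rintro ⟨_, ⟨i, rfl⟩, rfl⟩
        exact ⟨i.rev, (hδ i).symm⟩
      · rintro ⟨i, rfl⟩
        refine ⟨r i.rev, ⟨i.rev, rfl⟩, ?_⟩
        have := hδ i.rev
        rw [Fin.rev_rev] at this
        exact this
    refine ⟨(δ.subgroupMap (closure (Set.range r))).trans (MulEquiv.subgroupCongr hmap), ?_⟩
    intro i
    apply Subtype.ext
    exact hδ i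

end Pool.Agent.Lib.MP_4f2bc5_co
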