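import Pool.Agent.Lib.MP_4f2bc5_co.Basic

/-!
# p even: flat amalgamation of two polyhedra whose edges can be killed
-/

set_option autoImplicit false

namespace Pool.Agent.Lib.MP_4f2bc5_co

open Subgroup DihedralGroup

/-- the automorphism of a dihedral group exchanging the reflections `sr 0` and `sr 1` -/
def flip (q : ℕ) : DihedralGroup q ≃* DihedralGroup q where
  toFun x := match x with
    | r i => r (-i)
    | sr i => sr (1 - i)
  invFun x := match x with
    | r i => r (-i)
    | sr i => sr (1 - i)
  left_inv x := by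
    cases x <;> simp
  right_inv x := by
    cases x <;> simp
  map_mul' x y := by
    cases x <;> cases y <;> simp only [r_mul_r, r_mul_sr, sr_mul_r, sr_mul_sr] <;>
      congr 1 <;> ring

theorem flip_sr_zero (q : ℕ) : flip q (sr 0) = sr 1 := by
  change sr (1 - 0) = sr 1
  rw [sub_zero]

theorem flip_sr_one (q : ℕ) : flip q (sr 1) = sr 0 := by
  change sr (1 - 1) = sr 0
  rw [sub_self]

theorem flip_symm (q : ℕ) (x : DihedralGroup q) : (flip q).symm x = flip q x := by
  cases x <;> rfl

theorem flip_flip (q : ℕ) (x : DihedralGroup q) : flip q (flip q x) = x := by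
  have h := (flip q).symm_apply_apply x
  rw [flip_symm] at h
  exact h

section Even

variable (m q : ℕ)

/-- the base group -/
abbrev DD := DihedralGroup m × DihedralGroup m

/-- the ambient group -/
abbrev HE := RegularWreathProduct (DD m) (DihedralGroup q)

open Classical in
/-- generators -/
noncomputable def gE : Fin 4 → HE m q
  | 0 => ⟨fun x => if x = 1 ∨ x = sr 1 then (sr 0, 1) else (sr 1, 1), 1⟩
  | 1 => ⟨1, sr 0⟩
  | 2 => ⟨1, sr 1⟩
  | 3 => ⟨fun x => if x = 1 ∨ x = sr 0 then (1, sr 0) else (1, sr 1), 1⟩

theorem gE_sq (i : Fin 4) : gE m q i * gE m q i = 1 := by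
  fin_cases i
  · ext x
    · simp only [gE, RegularWreathProduct.mul_left, Pi.mul_apply, inv_one, one_mul,
        RegularWreathProduct.one_left, Pi.one_apply]
      split_ifs <;> simp
    · simp only [gE, RegularWreathProduct.mul_left, Pi.mul_apply, inv_one, one_mul,
        RegularWreathProduct.one_left, Pi.one_apply]
      split_ifs <;> simp
    · simp [gE]
  · ext x
    · simp [gE]
    · simp [gE]
    · simp [gE]
  · ext x
    · simp [gE]
    · simp [gE]
    · simp [gE]
  · ext x
    · simp only [gE, RegularWreathProduct.mul_left, Pi.mul_apply, inv_one, one_mul,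
        RegularWreathProduct.one_left, Pi.one_apply]
      split_ifs <;> simp
    · simp only [gE, RegularWreathProduct.mul_left, Pi.mul_apply, inv_one, one_mul,
        RegularWreathProduct.one_left, Pi.one_apply]
      split_ifs <;> simp
    · simp [gE]

theorem gE0_left (x : DihedralGroup q) : (gE m q 0).left x = (sr 0, 1) ∨
    (gE m q 0).left x = (sr 1, 1) := by
  simp only [gE]
  split_ifs
  · exact Or.inl rfl
  · exact Or.inr rfl

theorem gE3_left (x : DihedralGroup q) : (gE m q 3).left x = (1, sr 0) ∨
    (gE m q 3).left x = (1, sr 1) := by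
  simp only [gE]
  split_ifs
  · exact Or.inl rfl
  · exact Or.inr rfl

theorem sr_mul_eq_one_iff {n : ℕ} (i : ZMod n) (x : DihedralGroup n) : sr i * x = 1 ↔ x = sr i := by
  constructor
  · intro h
    have := congrArg (sr i * ·) h
    simp only [← mul_assoc, sr_mul_self, one_mul, mul_one] at this
    exact this
  · intro h
    rw [h, sr_mul_self]

theorem sr_mul_eq_iff {n : ℕ} (i : ZMod n) (x : DihedralGroup n) : sr i * x = sr i ↔ x = 1 := by
  constructor
  · intro h
    have := congrArg (sr i * ·) h
    simp only [← mul_assoc, sr_mul_self, one_mul] at this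
    exact this
  · intro h
    rw [h, mul_one]

theorem gE_c02 : gE m q 0 * gE m q 2 = gE m q 2 * gE m q 0 := by
  have h : ∀ x : DihedralGroup q, (sr 1 * x = 1 ∨ sr 1 * x = sr 1) ↔ (x = 1 ∨ x = sr 1) := by
    intro x
    rw [sr_mul_eq_one_iff, sr_mul_eq_iff]
    exact or_comm
  apply RegularWreathProduct.ext
  · funext x
    simp only [gE, RegularWreathProduct.mul_left, Pi.mul_apply, one_mul,
        Pi.one_apply, mul_one, inv_sr, h]
  · simp [gE]

theorem gE_c13 : gE m q 1 * gE m q 3 = gE m q 3 * gE m q 1 := by
  have h : ∀ x : DihedralGroup q, (sr 0 * x = 1 ∨ sr 0 * x = sr 0) ↔ (x = 1 ∨ x = sr 0) := by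
    intro x
    rw [sr_mul_eq_one_iff, sr_mul_eq_iff]
    exact or_comm
  apply RegularWreathProduct.ext
  · funext x
    simp only [gE, RegularWreathProduct.mul_left, Pi.mul_apply, one_mul,
        Pi.one_apply, mul_one, inv_sr, h]
  · simp [gE]

theorem gE_c03 : gE m q 0 * gE m q 3 = gE m q 3 * gE m q 0 := by
  apply RegularWreathProduct.ext
  · funext x
    simp only [gE, RegularWreathProduct.mul_left, Pi.mul_apply, inv_one, one_mul]
    split_ifs <;> simp
  · simp [gE]

theorem gE_delta (i : Fin 4) : RegularWreathProduct.congr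
    (MulEquiv.prodComm : DD m ≃* DD m) (flip q) (gE m q i) = gE m q i.rev := by
  have h0 : ∀ x : DihedralGroup q, (flip q x = 1 ∨ flip q x = sr 1) ↔ (x = 1 ∨ x = sr 0) := by
    intro x
    have h1 : flip q x = 1 ↔ x = 1 := by simp
    have h2 : flip q x = sr 1 ↔ x = sr 0 := by
      rw [← flip_sr_zero]
      exact (flip q).injective.eq_iff
    rw [h1, h2]
  have h3 : ∀ x : DihedralGroup q, (flip q x = 1 ∨ flip q x = sr 0) ↔ (x = 1 ∨ x = sr 1) := by
    intro x
    have h1 : flip q x = 1 ↔ x = 1 := by simp
    have h2 : flip q x = sr 0 ↔ x = sr 1 := by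
      rw [← flip_sr_one]
      exact (flip q).injective.eq_iff
    rw [h1, h2]
  fin_cases i
  · apply RegularWreathProduct.ext
    · funext x
      change MulEquiv.prodComm (if (flip q).symm x = 1 ∨ (flip q).symm x = sr 1 then
        ((sr 0, 1) : DD m) else (sr 1, 1)) = if x = 1 ∨ x = sr 0 then ((1, sr 0) : DD m)
        else (1, sr 1)
      rw [flip_symm]
      simp only [h0]
      split_ifs <;> rfl
    · exact map_one (flip q)
  · apply RegularWreathProduct.ext
    · funext x
      rfl
    · exact flip_sr_zero q
  · apply RegularWreathProduct.ext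
    · funext x
      rfl
    · exact flip_sr_one q
  · apply RegularWreathProduct.ext
    · funext x
      change MulEquiv.prodComm (if (flip q).symm x = 1 ∨ (flip q).symm x = sr 0 then
        ((1, sr 0) : DD m) else (1, sr 1)) = if x = 1 ∨ x = sr 1 then ((sr 0, 1) : DD m)
        else (sr 1, 1)
      rw [flip_symm]
      simp only [h3]
      split_ifs <;> rfl
    · exact map_one (flip q)

theorem closure_sr (x : DihedralGroup q) : x ∈ closure ({sr 0, sr 1} : Set (DihedralGroup q)) := by
  have h0 : (sr 0 : DihedralGroup q) ∈ closure ({sr 0, sr 1} : Set (DihedralGroup q)) :=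
    subset_closure (by simp)
  have h1 : (sr 1 : DihedralGroup q) ∈ closure ({sr 0, sr 1} : Set (DihedralGroup q)) :=
    subset_closure (by simp)
  have hr : ∀ i : ZMod q, (r i : DihedralGroup q) ∈
      closure ({sr 0, sr 1} : Set (DihedralGroup q)) := by
    intro i
    obtain ⟨k, rfl⟩ := ZMod.intCast_surjective i
    rw [← r_one_zpow]
    apply zpow_mem
    have h2 : (r 1 : DihedralGroup q) = sr 0 * sr 1 := by
      rw [sr_mul_sr, sub_zero]
    rw [h2]
    exact mul_mem h0 h1
  cases x with
  | r i => exact hr i
  | sr i =>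
    have h2 : (sr i : DihedralGroup q) = sr 0 * r i := by
      rw [sr_mul_r, zero_add]
    rw [h2]
    exact mul_mem h0 (hr i)

/-- elements of the base group with trivial second (first) components -/
theorem gE_mem_A (g : HE m q) (hg : g ∈ closure ({gE m q 0, gE m q 1, gE m q 2} : Set (HE m q))) :
    ∀ x, (g.left x).2 = 1 := by
  induction hg using closure_induction with
  | mem y hy =>
    intro x
    rcases hy with rfl | rfl | hy
    · rcases gE0_left m q x with h | h <;> rw [h]
    · rfl
    · rw [Set.mem_singleton_iff] at hy; subst hy; rfl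
  | one => intro x; rfl
  | mul a b _ _ ha hb =>
    intro x
    rw [RegularWreathProduct.mul_left, Pi.mul_apply, Prod.snd_mul, ha, hb, one_mul]
  | inv a _ ha =>
    intro x
    change ((a.left (a.right * x))⁻¹).2 = 1
    rw [Prod.snd_inv, ha, inv_one]

theorem gE_mem_B (g : HE m q) (hg : g ∈ closure ({gE m q 1, gE m q 2, gE m q 3} : Set (HE m q))) :
    ∀ x, (g.left x).1 = 1 := by
  induction hg using closure_induction with
  | mem y hy =>
    intro x
    rcases hy with rfl | rfl | hy
    · rfl
    · rfl
    · rw [Set.mem_singleton_iff] at hy; subst hy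
      rcases gE3_left m q x with h | h <;> rw [h]
  | one => intro x; rfl
  | mul a b _ _ ha hb =>
    intro x
    rw [RegularWreathProduct.mul_left, Pi.mul_apply, Prod.fst_mul, ha, hb, one_mul]
  | inv a _ ha =>
    intro x
    change ((a.left (a.right * x))⁻¹).1 = 1
    rw [Prod.fst_inv, ha, inv_one]

theorem gE_mem_12 (g : HE m q) (hg : g ∈ closure ({gE m q 1, gE m q 2} : Set (HE m q))) :
    g.left = 1 := by
  funext x
  apply Prod.ext
  · exact gE_mem_B m q g (closure_mono (by
      intro y hy; simp only [Set.mem_insert_iff, Set.mem_singleton_iff] at hy ⊢; tauto) hg) x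
  · exact gE_mem_A m q g (closure_mono (by
      intro y hy; simp only [Set.mem_insert_iff, Set.mem_singleton_iff] at hy ⊢; tauto) hg) x

theorem gE_mem_12' (g : HE m q) (hg : g.left = 1) :
    g ∈ closure ({gE m q 1, gE m q 2} : Set (HE m q)) := by
  have h1 : g = RegularWreathProduct.inl g.right := by
    apply RegularWreathProduct.ext
    · rw [hg, RegularWreathProduct.left_inl]
    · rw [RegularWreathProduct.right_inl]
  have h2 : ({gE m q 1, gE m q 2} : Set (HE m q)) =
      (RegularWreathProduct.inl : DihedralGroup q →* HE m q) '' {sr 0, sr 1} := by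
    rw [Set.image_pair]
    rfl
  rw [h1, h2, ← MonoidHom.map_closure]
  exact mem_map_of_mem _ (closure_sr q g.right)

theorem gE_right_01 (g : HE m q) (hg : g ∈ closure ({gE m q 0, gE m q 1} : Set (HE m q))) :
    g.right = 1 ∨ g.right = sr 0 := by
  have h := mem_map_of_mem (RegularWreathProduct.rightHom : HE m q →* DihedralGroup q) hg
  rw [MonoidHom.map_closure, Set.image_pair] at h
  change g.right ∈ closure ({1, sr 0} : Set (DihedralGroup q)) at h
  rw [closure_insert_one] at h
  exact mem_closure_one (sr_mul_self 0) h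

theorem gE_right_23 (g : HE m q) (hg : g ∈ closure ({gE m q 2, gE m q 3} : Set (HE m q))) :
    g.right = 1 ∨ g.right = sr 1 := by
  have h := mem_map_of_mem (RegularWreathProduct.rightHom : HE m q →* DihedralGroup q) hg
  rw [MonoidHom.map_closure, Set.image_pair, Set.pair_comm] at h
  change g.right ∈ closure ({1, sr 1} : Set (DihedralGroup q)) at h
  rw [closure_insert_one] at h
  exact mem_closure_one (sr_mul_self 1) h

theorem gE_core (hq : 2 ≤ q) : Core (gE m q) := by
  have h01 : (sr 0 : DihedralGroup q) ≠ sr 1 := by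
    intro h
    have h2 : (0 : ZMod q) = 1 := by injection h
    have : Fact (1 < q) := ⟨by omega⟩
    exact zero_ne_one h2
  have hs : ∀ i : ZMod q, (sr i : DihedralGroup q) ≠ 1 := by
    intro i h
    rw [one_def] at h
    exact nomatch h
  have hs2 : ∀ i : ZMod m, (sr i : DihedralGroup m) ≠ 1 := by
    intro i h
    rw [one_def] at h
    exact nomatch h
  refine ⟨gE_sq m q, ?_, gE_c02 m q, gE_c03 m q, gE_c13 m q, ?_, ?_, ?_, ?_, ?_, ?_⟩
  · intro i h
    fin_cases i
    · have h1 := congrFun (congrArg RegularWreathProduct.left h) 1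
      rcases gE0_left m q 1 with h2 | h2
      · exact hs2 _ (congrArg Prod.fst (h2.symm.trans h1))
      · exact hs2 _ (congrArg Prod.fst (h2.symm.trans h1))
    · exact hs 0 (congrArg RegularWreathProduct.right h)
    · exact hs 1 (congrArg RegularWreathProduct.right h)
    · have h1 := congrFun (congrArg RegularWreathProduct.left h) 1
      rcases gE3_left m q 1 with h2 | h2
      · exact hs2 _ (congrArg Prod.snd (h2.symm.trans h1))
      · exact hs2 _ (congrArg Prod.snd (h2.symm.trans h1))
  · intro h
    exact hs 0 (congrArg RegularWreathProduct.right h).symm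
  · intro h
    exact h01 (congrArg RegularWreathProduct.right h)
  · intro h
    exact hs 1 (congrArg RegularWreathProduct.right h)
  · intro g hA hB
    apply gE_mem_12'
    funext x
    exact Prod.ext (gE_mem_B m q g hB x) (gE_mem_A m q g hA x)
  · intro g h1 h2
    have h3 := gE_mem_12 m q g h2
    rcases gE_right_01 m q g h1 with h4 | h4
    · left
      exact RegularWreathProduct.ext h3 h4
    · right
      exact RegularWreathProduct.ext h3 h4
  · intro g h1 h2
    have h3 := gE_mem_12 m q g h2
    rcases gE_right_23 m q g h1 with h4 | h4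
    · left
      exact RegularWreathProduct.ext h3 h4
    · right
      exact RegularWreathProduct.ext h3 h4

theorem gE_order_12 : orderOf (gE m q 1 * gE m q 2) = q := by
  have h : gE m q 1 * gE m q 2 = RegularWreathProduct.inl (r 1 : DihedralGroup q) := by
    have h2 : (r 1 : DihedralGroup q) = sr 0 * sr 1 := by
      rw [sr_mul_sr, sub_zero]
    rw [h2, map_mul]
    rfl
  rw [h]
  rw [orderOf_injective (RegularWreathProduct.inl : DihedralGroup q →* HE m q) (by
    intro a b hab
    exact congrArg RegularWreathProduct.right hab), orderOf_r_one]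

theorem gE_order_01 (hq : 2 ≤ q) : orderOf (gE m q 0 * gE m q 1) = 2 * m := by
  have h01 : (sr 0 : DihedralGroup q) ≠ sr 1 := by
    intro h
    have h2 : (0 : ZMod q) = 1 := by injection h
    have : Fact (1 < q) := ⟨by omega⟩
    exact zero_ne_one h2
  have hs : ∀ i : ZMod q, (sr i : DihedralGroup q) ≠ 1 := by
    intro i h
    rw [one_def] at h
    exact nomatch h
  set a := gE m q 0 * gE m q 1 with ha
  have haR : a.right = sr 0 := by
    rw [ha, RegularWreathProduct.mul_right]
    simp [gE]
  have haL : ∀ x, a.left x = (gE m q 0).left x := by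
    intro x
    rw [ha, RegularWreathProduct.mul_left]
    simp [gE]
  -- the square
  have hsq : ∀ k : ℕ, (a ^ (2 * k)).right = 1 ∧ ∀ x, (a ^ (2 * k)).left x =
      ((gE m q 0).left x * (gE m q 0).left (sr 0 * x)) ^ k := by
    intro k
    induction k with
    | zero => simp
    | succ k ih =>
      have h1 : a ^ (2 * (k + 1)) = a ^ (2 * k) * (a * a) := by
        rw [mul_add, pow_add, mul_one, pow_two]
      have h2 : (a * a).right = 1 := by
        rw [RegularWreathProduct.mul_right, haR, sr_mul_self]
      have h3 : ∀ x, (a * a).left x = (gE m q 0).left x * (gE m q 0).left (sr 0 * x) := by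
        intro x
        rw [RegularWreathProduct.mul_left, Pi.mul_apply, haR, inv_sr, haL, haL]
      refine ⟨?_, ?_⟩
      · rw [h1, RegularWreathProduct.mul_right, ih.1, h2, one_mul]
      · intro x
        rw [h1, RegularWreathProduct.mul_left, Pi.mul_apply, ih.1, inv_one, one_mul, ih.2, h3,
          pow_succ]
  have hm : ∀ u v : DD m, (u = (sr 0, 1) ∨ u = (sr 1, 1)) → (v = (sr 0, 1) ∨ v = (sr 1, 1)) →
      (u * v) ^ m = 1 := by
    have hrm : ∀ i : ZMod m, (r i : DihedralGroup m) ^ m = 1 := by
      intro i
      rw [r_pow, ZMod.natCast_self, mul_zero, r_zero]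
    rintro u v (rfl | rfl) (rfl | rfl) <;>
    · apply Prod.ext
      · rw [Prod.pow_fst, Prod.fst_mul, sr_mul_sr, hrm, Prod.fst_one]
      · rw [Prod.pow_snd, Prod.snd_mul, one_mul, one_pow, Prod.snd_one]
  apply Nat.dvd_antisymm
  · apply orderOf_dvd_of_pow_eq_one
    apply RegularWreathProduct.ext
    · funext x
      rw [(hsq m).2 x]
      exact hm _ _ (gE0_left m q x) (gE0_left m q (sr 0 * x))
    · exact (hsq m).1
  · have h1 := pow_orderOf_eq_one a
    generalize hn : orderOf a = n at h1
    have h2 : (sr 0 : DihedralGroup q) ^ n = 1 := by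
      have h3 := congrArg (RegularWreathProduct.rightHom : HE m q →* DihedralGroup q) h1
      rw [map_pow, map_one] at h3
      change a.right ^ n = 1 at h3
      rwa [haR] at h3
    have h4 : 2 ∣ n := by
      rw [← orderOf_sr (0 : ZMod q)]
      exact orderOf_dvd_of_pow_eq_one h2
    obtain ⟨k, rfl⟩ := h4
    apply Nat.mul_dvd_mul_left
    have h5 := (hsq k).2 1
    rw [h1] at h5
    have h6 : (gE m q 0).left 1 = (sr 0, 1) := by simp [gE]
    have h7 : (gE m q 0).left (sr 0 * 1) = (sr 1, 1) := by
      rw [mul_one]
      simp only [gE]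
      rw [if_neg]
      rintro (h | h)
      · exact hs 0 h
      · exact h01 h
    rw [h6, h7] at h5
    have h8 := congrArg Prod.fst h5
    rw [Prod.pow_fst, Prod.fst_mul, sr_mul_sr, sub_zero] at h8
    rw [← orderOf_r_one (n := m)]
    exact orderOf_dvd_of_pow_eq_one h8.symm

/-- all even p -/
theorem exists_even (hm : 1 ≤ m) (hq : 2 ≤ q) :
    ∃ (G : Type) (_ : Group G) (_ : Finite G) (s : Fin 4 → G),
      IsStringC s ∧ HasType s (2 * m) q (2 * m) ∧ IsSelfDual s := by
  have : NeZero m := ⟨by omega⟩
  have : NeZero q := ⟨by omega⟩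
  exact (gE_core m q hq).exists_stringC _ (gE_delta m q) (gE_order_01 m q hq) (gE_order_12 m q)

end Even

end Pool.Agent.Lib.MP_4f2bc5_co
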