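import Pool.Agent.Lib.MP_4f2bc5_co.Basic

/-!
# The linear construction (p odd)
-/

set_option autoImplicit false

namespace Pool.Agent.Lib.MP_4f2bc5_co

open Subgroup Matrix

section Mat

variable {S : Type} [CommRing S]

/-- the generating reflections -/
def Rm (x y : S) : Fin 4 → Matrix (Fin 4) (Fin 4) S
  | 0 => !![-1, 1, 0, 0; 0, 1, 0, 0; 0, 0, 1, 0; 0, 0, 0, 1]
  | 1 => !![1, 0, 0, 0; x, -1, 2, 0; 0, 0, 1, 0; 0, 0, 0, 1]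
  | 2 => !![1, 0, 0, 0; 0, 1, 0, 0; 0, 2, -1, y; 0, 0, 0, 1]
  | 3 => !![1, 0, 0, 0; 0, 1, 0, 0; 0, 0, 1, 0; 0, 0, 1, -1]

theorem Rm_sq (x y : S) (i : Fin 4) : Rm x y i * Rm x y i = 1 := by
  fin_cases i <;>
  · ext a b
    fin_cases a <;> fin_cases b <;> simp [Rm, Matrix.mul_apply, Fin.sum_univ_four]

theorem Rm_c02 (x y : S) : Rm x y 0 * Rm x y 2 = Rm x y 2 * Rm x y 0 := by
  ext a b
  fin_cases a <;> fin_cases b <;> simp [Rm, Matrix.mul_apply, Fin.sum_univ_four]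

theorem Rm_c03 (x y : S) : Rm x y 0 * Rm x y 3 = Rm x y 3 * Rm x y 0 := by
  ext a b
  fin_cases a <;> fin_cases b <;> simp [Rm, Matrix.mul_apply, Fin.sum_univ_four]

theorem Rm_c13 (x y : S) : Rm x y 1 * Rm x y 3 = Rm x y 3 * Rm x y 1 := by
  ext a b
  fin_cases a <;> fin_cases b <;> simp [Rm, Matrix.mul_apply, Fin.sum_univ_four]

/-- rows of `Rm 0 * M` etc. -/
theorem Rm0_mul (x y : S) (M : Matrix (Fin 4) (Fin 4) S) (j : Fin 4) :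
    (Rm x y 0 * M) 0 j = -M 0 j + M 1 j ∧ (Rm x y 0 * M) 1 j = M 1 j ∧
    (Rm x y 0 * M) 2 j = M 2 j ∧ (Rm x y 0 * M) 3 j = M 3 j := by
  refine ⟨?_, ?_, ?_, ?_⟩ <;> simp [Rm, Matrix.mul_apply, Fin.sum_univ_four]

theorem Rm1_mul (x y : S) (M : Matrix (Fin 4) (Fin 4) S) (j : Fin 4) :
    (Rm x y 1 * M) 0 j = M 0 j ∧ (Rm x y 1 * M) 1 j = x * M 0 j - M 1 j + 2 * M 2 j ∧
    (Rm x y 1 * M) 2 j = M 2 j ∧ (Rm x y 1 * M) 3 j = M 3 j := by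
  refine ⟨?_, ?_, ?_, ?_⟩ <;> simp [Rm, Matrix.mul_apply, Fin.sum_univ_four] <;> ring

theorem Rm2_mul (x y : S) (M : Matrix (Fin 4) (Fin 4) S) (j : Fin 4) :
    (Rm x y 2 * M) 0 j = M 0 j ∧ (Rm x y 2 * M) 1 j = M 1 j ∧
    (Rm x y 2 * M) 2 j = 2 * M 1 j - M 2 j + y * M 3 j ∧ (Rm x y 2 * M) 3 j = M 3 j := by
  refine ⟨?_, ?_, ?_, ?_⟩ <;> simp [Rm, Matrix.mul_apply, Fin.sum_univ_four] <;> ring

theorem Rm3_mul (x y : S) (M : Matrix (Fin 4) (Fin 4) S) (j : Fin 4) :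
    (Rm x y 3 * M) 0 j = M 0 j ∧ (Rm x y 3 * M) 1 j = M 1 j ∧
    (Rm x y 3 * M) 2 j = M 2 j ∧ (Rm x y 3 * M) 3 j = M 2 j - M 3 j := by
  refine ⟨?_, ?_, ?_, ?_⟩ <;> simp [Rm, Matrix.mul_apply, Fin.sum_univ_four] <;> ring

theorem Rm_det (x y : S) (i : Fin 4) : (Rm x y i).det = -1 := by
  fin_cases i <;> simp [Rm, Matrix.det_succ_row_zero, Fin.sum_univ_succ, Fin.succAbove]

/-- the polar form of the invariant quadratic form on two columns -/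
def Bf (x y : S) (M : Matrix (Fin 4) (Fin 4) S) (j k : Fin 4) : S :=
  2 * x * M 0 j * M 0 k - x * (M 0 j * M 1 k + M 0 k * M 1 j) + 2 * M 1 j * M 1 k
    - 2 * (M 1 j * M 2 k + M 1 k * M 2 j) + 2 * M 2 j * M 2 k
    - y * (M 2 j * M 3 k + M 2 k * M 3 j) + 2 * y * M 3 j * M 3 k

/-- the invariant quadratic form on a column -/
def Qf (x y : S) (M : Matrix (Fin 4) (Fin 4) S) (j : Fin 4) : S :=
  x * M 0 j ^ 2 - x * M 0 j * M 1 j + M 1 j ^ 2 - 2 * M 1 j * M 2 j + M 2 j ^ 2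
    - y * M 2 j * M 3 j + y * M 3 j ^ 2

theorem Bf_mul (x y : S) (i : Fin 4) (M : Matrix (Fin 4) (Fin 4) S) (j k : Fin 4) :
    Bf x y (Rm x y i * M) j k = Bf x y M j k := by
  fin_cases i
  · obtain ⟨a0, a1, a2, a3⟩ := Rm0_mul x y M j
    obtain ⟨b0, b1, b2, b3⟩ := Rm0_mul x y M k
    simp only [Bf, Fin.zero_eta, a0, a1, a2, a3, b0, b1, b2, b3]
    ring
  · obtain ⟨a0, a1, a2, a3⟩ := Rm1_mul x y M j
    obtain ⟨b0, b1, b2, b3⟩ := Rm1_mul x y M k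
    simp only [Bf, Fin.mk_one, a0, a1, a2, a3, b0, b1, b2, b3]
    ring
  · obtain ⟨a0, a1, a2, a3⟩ := Rm2_mul x y M j
    obtain ⟨b0, b1, b2, b3⟩ := Rm2_mul x y M k
    simp only [Bf, Fin.reduceFinMk, a0, a1, a2, a3, b0, b1, b2, b3]
    ring
  · obtain ⟨a0, a1, a2, a3⟩ := Rm3_mul x y M j
    obtain ⟨b0, b1, b2, b3⟩ := Rm3_mul x y M k
    simp only [Bf, Fin.reduceFinMk, a0, a1, a2, a3, b0, b1, b2, b3]
    ring

theorem Qf_mul (x y : S) (i : Fin 4) (M : Matrix (Fin 4) (Fin 4) S) (j : Fin 4) :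
    Qf x y (Rm x y i * M) j = Qf x y M j := by
  fin_cases i
  · obtain ⟨a0, a1, a2, a3⟩ := Rm0_mul x y M j
    simp only [Qf, Fin.zero_eta, a0, a1, a2, a3]
    ring
  · obtain ⟨a0, a1, a2, a3⟩ := Rm1_mul x y M j
    simp only [Qf, Fin.mk_one, a0, a1, a2, a3]
    ring
  · obtain ⟨a0, a1, a2, a3⟩ := Rm2_mul x y M j
    simp only [Qf, Fin.reduceFinMk, a0, a1, a2, a3]
    ring
  · obtain ⟨a0, a1, a2, a3⟩ := Rm3_mul x y M j
    simp only [Qf, Fin.reduceFinMk, a0, a1, a2, a3]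
    ring

/-- powers of `Rm 1 * Rm 2` -/
def Um (x y k : S) : Matrix (Fin 4) (Fin 4) S :=
  !![1, 0, 0, 0; k ^ 2 * x, 1 + 2 * k, -(2 * k), (k ^ 2 + k) * y;
    (k ^ 2 - k) * x, 2 * k, 1 - 2 * k, k ^ 2 * y; 0, 0, 0, 1]

theorem Um_zero (x y : S) : Um x y 0 = 1 := by
  ext a b
  fin_cases a <;> fin_cases b <;> simp [Um]

theorem Um_succ (x y k : S) : Um x y (k + 1) = Um x y k * (Rm x y 1 * Rm x y 2) := by
  ext a b
  fin_cases a <;> fin_cases b <;> simp [Um, Rm, Matrix.mul_apply, Fin.sum_univ_four] <;> ring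

theorem Um_pow (x y : S) (n : ℕ) : (Rm x y 1 * Rm x y 2) ^ n = Um x y n := by
  induction n with
  | zero => rw [pow_zero, Nat.cast_zero, Um_zero]
  | succ n ih => rw [pow_succ, ih, Nat.cast_succ, Um_succ]

end Mat

end Pool.Agent.Lib.MP_4f2bc5_co
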