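import Pool.Agent.Lib.MP_4f2bc5_co.Linear

/-!
# The linear construction, second part: the group and its parabolic subgroups
-/

set_option autoImplicit false

namespace Pool.Agent.Lib.MP_4f2bc5_co

open Subgroup Matrix

/-- the ring data needed for the linear construction -/
structure LinData (N p : ℕ) (L S : Type) [CommRing L] [CommRing S] where
  i1 : L →+* S
  i2 : L →+* S
  inj1 : Function.Injective i1
  inj2 : Function.Injective i2
  inter : ∀ a b, i1 a = i2 b → ∃ n : ℕ, a = n ∧ b = n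
  half : ∀ (e : L) (n : ℤ), 2 * e = n → ∃ k : ℕ, 2 * e = 2 * (k : L)
  sqz : ∀ a : L, 2 * a = 0 → a * a = 0
  char : ∀ n : ℕ, ((n : S) = 0 ↔ N ∣ n)
  σ : S ≃+* S
  σ1 : ∀ a, σ (i1 a) = i2 a
  σ2 : ∀ a, σ (i2 a) = i1 a
  z : L
  w : L
  zw : z * w = 1
  zp : z ^ p = 1
  zsum : ∑ j ∈ Finset.range p, z ^ j = 0
  v : L
  zv : (1 + z) * v = 1
  zord : ∀ k, z ^ k = 1 → p ∣ k

/-- induction over a group generated by involutions -/
theorem closure_induct {G : Type} [Group G] {X : Set G} (hX : ∀ s ∈ X, s * s = 1) {P : G → Prop}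
    (h1 : P 1) (hs : ∀ s ∈ X, ∀ g, P g → P (s * g)) {g : G} (hg : g ∈ closure X) : P g := by
  induction hg using closure_induction_left with
  | one => exact h1
  | mul_left x hx y hy ih => exact hs x hx y ih
  | inv_mul_cancel x hx y hy ih =>
    have hi : x⁻¹ = x := inv_eq_of_mul_eq_one_left (hX x hx)
    rw [hi]
    exact hs x hx y ih

namespace LinData

variable {N p : ℕ} {L S : Type} [CommRing L] [CommRing S] (D : LinData N p L S)

/-- the parameter -/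
def xi : L := 2 + D.z + D.w

/-- inverse of the parameter -/
def xiInv : L := D.z * D.v ^ 2

theorem xi_mul : D.xi * D.xiInv = 1 := by
  have h1 := D.zw
  have h2 := D.zv
  have h3 : D.xi * D.z = (1 + D.z) ^ 2 := by
    rw [xi]
    linear_combination h1
  calc D.xi * D.xiInv = (D.xi * D.z) * D.v ^ 2 := by rw [xiInv]; ring
    _ = ((1 + D.z) * D.v) ^ 2 := by rw [h3]; ring
    _ = 1 := by rw [h2, one_pow]

/-- first parameter in the big ring -/
def x : S := D.i1 D.xi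

/-- second parameter in the big ring -/
def y : S := D.i2 D.xi

theorem x_cancel {a b : S} (h : D.x * a = D.x * b) : a = b := by
  have h1 : D.x * D.i1 D.xiInv = 1 := by rw [x, ← map_mul, D.xi_mul, map_one]
  calc a = (D.x * D.i1 D.xiInv) * a := by rw [h1, one_mul]
    _ = D.i1 D.xiInv * (D.x * a) := by ring
    _ = D.i1 D.xiInv * (D.x * b) := by rw [h]
    _ = (D.x * D.i1 D.xiInv) * b := by ring
    _ = b := by rw [h1, one_mul]

theorem y_cancel {a b : S} (h : D.y * a = D.y * b) : a = b := by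
  have h1 : D.y * D.i2 D.xiInv = 1 := by rw [y, ← map_mul, D.xi_mul, map_one]
  calc a = (D.y * D.i2 D.xiInv) * a := by rw [h1, one_mul]
    _ = D.i2 D.xiInv * (D.y * a) := by ring
    _ = D.i2 D.xiInv * (D.y * b) := by rw [h]
    _ = (D.y * D.i2 D.xiInv) * b := by ring
    _ = b := by rw [h1, one_mul]

/-- the ambient group -/
abbrev HL (S : Type) [CommRing S] : Type := (Matrix (Fin 4) (Fin 4) S)ˣ × ℤˣ

/-- the generators -/
def r (i : Fin 4) : HL S :=
  (⟨Rm D.x D.y i, Rm D.x D.y i, Rm_sq D.x D.y i, Rm_sq D.x D.y i⟩, -1)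

/-- the matrix of an element -/
def mat (g : HL S) : Matrix (Fin 4) (Fin 4) S := (g.1 : Matrix (Fin 4) (Fin 4) S)

theorem mat_one : mat (1 : HL S) = 1 := rfl

theorem mat_mul (g h : HL S) : mat (g * h) = mat g * mat h := rfl

theorem mat_r (i : Fin 4) : mat (D.r i) = Rm D.x D.y i := rfl

theorem mat_pow (g : HL S) (n : ℕ) : mat (g ^ n) = mat g ^ n := by
  induction n with
  | zero => rw [pow_zero, pow_zero, mat_one]
  | succ n ih => rw [pow_succ, pow_succ, mat_mul, ih]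

theorem ext_HL {g h : HL S} (h1 : mat g = mat h) (h2 : g.2 = h.2) : g = h :=
  Prod.ext (Units.ext h1) h2

theorem r_sq (i : Fin 4) : D.r i * D.r i = 1 := by
  apply ext_HL
  · rw [mat_mul, mat_r, Rm_sq, mat_one]
  · simp [r]

theorem r_c02 : D.r 0 * D.r 2 = D.r 2 * D.r 0 := by
  apply ext_HL
  · rw [mat_mul, mat_mul, mat_r, mat_r, Rm_c02]
  · simp [r]

theorem r_c03 : D.r 0 * D.r 3 = D.r 3 * D.r 0 := by
  apply ext_HL
  · rw [mat_mul, mat_mul, mat_r, mat_r, Rm_c03]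
  · simp [r]

theorem r_c13 : D.r 1 * D.r 3 = D.r 3 * D.r 1 := by
  apply ext_HL
  · rw [mat_mul, mat_mul, mat_r, mat_r, Rm_c13]
  · simp [r]

/-- the invariants of all elements -/
def Inv (g : HL S) : Prop :=
  (∀ j k, Bf D.x D.y (mat g) j k = Bf D.x D.y 1 j k) ∧
  (∀ j, Qf D.x D.y (mat g) j = Qf D.x D.y 1 j) ∧
  (mat g).det = ((g.2 : ℤ) : S)

theorem inv_closure (I : Set (Fin 4)) {g : HL S} (hg : g ∈ closure (D.r '' I)) : D.Inv g := by
  refine closure_induct (P := D.Inv) ?_ ?_ ?_ hg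
  · rintro _ ⟨i, -, rfl⟩
    exact D.r_sq i
  · refine ⟨fun j k => by rw [mat_one], fun j => by rw [mat_one], ?_⟩
    rw [mat_one, det_one]
    simp
  · rintro _ ⟨i, -, rfl⟩ g ⟨h1, h2, h3⟩
    refine ⟨fun j k => ?_, fun j => ?_, ?_⟩
    · rw [mat_mul, mat_r, Bf_mul, h1]
    · rw [mat_mul, mat_r, Qf_mul, h2]
    · rw [mat_mul, mat_r, det_mul, Rm_det, h3]
      simp [r]

/-- the elements of the group generated by the first three generators -/
def PA (g : HL S) : Prop :=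
  (mat g 3 0 = 0 ∧ mat g 3 1 = 0 ∧ mat g 3 2 = 0 ∧ mat g 3 3 = 1) ∧
  ∀ j : Fin 4, j ≠ 3 → mat g 0 j ∈ D.i1.range ∧ mat g 1 j ∈ D.i1.range ∧ mat g 2 j ∈ D.i1.range

/-- the elements of the group generated by the last three generators -/
def PB (g : HL S) : Prop :=
  (mat g 0 0 = 1 ∧ mat g 0 1 = 0 ∧ mat g 0 2 = 0 ∧ mat g 0 3 = 0) ∧
  ∀ j : Fin 4, j ≠ 0 → mat g 1 j ∈ D.i2.range ∧ mat g 2 j ∈ D.i2.range ∧ mat g 3 j ∈ D.i2.range

theorem two_mem (K : Subring S) : (2 : S) ∈ K := by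
  have : (2 : S) = 1 + 1 := by norm_num
  rw [this]
  exact K.add_mem K.one_mem K.one_mem

theorem one_entry_mem (K : Subring S) (i j : Fin 4) : (1 : Matrix (Fin 4) (Fin 4) S) i j ∈ K := by
  rw [Matrix.one_apply]
  split_ifs
  · exact K.one_mem
  · exact K.zero_mem

theorem PA_closure {g : HL S} (hg : g ∈ closure ({D.r 0, D.r 1, D.r 2} : Set (HL S))) :
    D.PA g := by
  have hx : D.x ∈ D.i1.range := ⟨D.xi, rfl⟩
  have h2 : (2 : S) ∈ D.i1.range := two_mem _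
  refine closure_induct (P := D.PA) ?_ ?_ ?_ hg
  · rintro s (rfl | rfl | rfl)
    · exact D.r_sq 0
    · exact D.r_sq 1
    · exact D.r_sq 2
  · refine ⟨by rw [mat_one]; simp, ?_⟩
    intro j hj
    rw [mat_one]
    exact ⟨one_entry_mem _ _ _, one_entry_mem _ _ _, one_entry_mem _ _ _⟩
  · rintro s (rfl | rfl | rfl) g ⟨⟨a0, a1, a2, a3⟩, h⟩
    · refine ⟨?_, ?_⟩
      · rw [mat_mul, mat_r]
        refine ⟨?_, ?_, ?_, ?_⟩
        · rw [(Rm0_mul D.x D.y (mat g) 0).2.2.2, a0]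
        · rw [(Rm0_mul D.x D.y (mat g) 1).2.2.2, a1]
        · rw [(Rm0_mul D.x D.y (mat g) 2).2.2.2, a2]
        · rw [(Rm0_mul D.x D.y (mat g) 3).2.2.2, a3]
      · intro j hj
        obtain ⟨b0, b1, b2⟩ := h j hj
        obtain ⟨e0, e1, e2, -⟩ := Rm0_mul D.x D.y (mat g) j
        rw [mat_mul, mat_r, e0, e1, e2]
        exact ⟨D.i1.range.add_mem (D.i1.range.neg_mem b0) b1, b1, b2⟩
    · refine ⟨?_, ?_⟩
      · rw [mat_mul, mat_r]
        refine ⟨?_, ?_, ?_, ?_⟩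
        · rw [(Rm1_mul D.x D.y (mat g) 0).2.2.2, a0]
        · rw [(Rm1_mul D.x D.y (mat g) 1).2.2.2, a1]
        · rw [(Rm1_mul D.x D.y (mat g) 2).2.2.2, a2]
        · rw [(Rm1_mul D.x D.y (mat g) 3).2.2.2, a3]
      · intro j hj
        obtain ⟨b0, b1, b2⟩ := h j hj
        obtain ⟨e0, e1, e2, -⟩ := Rm1_mul D.x D.y (mat g) j
        rw [mat_mul, mat_r, e0, e1, e2]
        exact ⟨b0, D.i1.range.add_mem (D.i1.range.sub_mem (D.i1.range.mul_mem hx b0) b1)
          (D.i1.range.mul_mem h2 b2), b2⟩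
    · refine ⟨?_, ?_⟩
      · rw [mat_mul, mat_r]
        refine ⟨?_, ?_, ?_, ?_⟩
        · rw [(Rm2_mul D.x D.y (mat g) 0).2.2.2, a0]
        · rw [(Rm2_mul D.x D.y (mat g) 1).2.2.2, a1]
        · rw [(Rm2_mul D.x D.y (mat g) 2).2.2.2, a2]
        · rw [(Rm2_mul D.x D.y (mat g) 3).2.2.2, a3]
      · intro j hj
        obtain ⟨b0, b1, b2⟩ := h j hj
        obtain ⟨e0, e1, e2, -⟩ := Rm2_mul D.x D.y (mat g) j
        have hz : mat g 3 j = 0 := by
          fin_cases j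
          · exact a0
          · exact a1
          · exact a2
          · exact absurd rfl hj
        rw [mat_mul, mat_r, e0, e1, e2, hz, mul_zero, add_zero]
        exact ⟨b0, b1, D.i1.range.sub_mem (D.i1.range.mul_mem h2 b1) b2⟩

theorem PB_closure {g : HL S} (hg : g ∈ closure ({D.r 1, D.r 2, D.r 3} : Set (HL S))) :
    D.PB g := by
  have hy : D.y ∈ D.i2.range := ⟨D.xi, rfl⟩
  have h2 : (2 : S) ∈ D.i2.range := two_mem _
  refine closure_induct (P := D.PB) ?_ ?_ ?_ hg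
  · rintro s (rfl | rfl | rfl)
    · exact D.r_sq 1
    · exact D.r_sq 2
    · exact D.r_sq 3
  · refine ⟨by rw [mat_one]; simp, ?_⟩
    intro j hj
    rw [mat_one]
    exact ⟨one_entry_mem _ _ _, one_entry_mem _ _ _, one_entry_mem _ _ _⟩
  · rintro s (rfl | rfl | rfl) g ⟨⟨a0, a1, a2, a3⟩, h⟩
    · refine ⟨?_, ?_⟩
      · rw [mat_mul, mat_r]
        refine ⟨?_, ?_, ?_, ?_⟩
        · rw [(Rm1_mul D.x D.y (mat g) 0).1, a0]
        · rw [(Rm1_mul D.x D.y (mat g) 1).1, a1]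
        · rw [(Rm1_mul D.x D.y (mat g) 2).1, a2]
        · rw [(Rm1_mul D.x D.y (mat g) 3).1, a3]
      · intro j hj
        obtain ⟨b0, b1, b2⟩ := h j hj
        obtain ⟨-, e1, e2, e3⟩ := Rm1_mul D.x D.y (mat g) j
        have hz : mat g 0 j = 0 := by
          fin_cases j
          · exact absurd rfl hj
          · exact a1
          · exact a2
          · exact a3
        rw [mat_mul, mat_r, e1, e2, e3, hz, mul_zero, zero_sub]
        exact ⟨D.i2.range.add_mem (D.i2.range.neg_mem b0) (D.i2.range.mul_mem h2 b1), b1, b2⟩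
    · refine ⟨?_, ?_⟩
      · rw [mat_mul, mat_r]
        refine ⟨?_, ?_, ?_, ?_⟩
        · rw [(Rm2_mul D.x D.y (mat g) 0).1, a0]
        · rw [(Rm2_mul D.x D.y (mat g) 1).1, a1]
        · rw [(Rm2_mul D.x D.y (mat g) 2).1, a2]
        · rw [(Rm2_mul D.x D.y (mat g) 3).1, a3]
      · intro j hj
        obtain ⟨b0, b1, b2⟩ := h j hj
        obtain ⟨-, e1, e2, e3⟩ := Rm2_mul D.x D.y (mat g) j
        rw [mat_mul, mat_r, e1, e2, e3]
        exact ⟨b0, D.i2.range.add_mem (D.i2.range.sub_mem (D.i2.range.mul_mem h2 b0) b1)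
          (D.i2.range.mul_mem hy b2), b2⟩
    · refine ⟨?_, ?_⟩
      · rw [mat_mul, mat_r]
        refine ⟨?_, ?_, ?_, ?_⟩
        · rw [(Rm3_mul D.x D.y (mat g) 0).1, a0]
        · rw [(Rm3_mul D.x D.y (mat g) 1).1, a1]
        · rw [(Rm3_mul D.x D.y (mat g) 2).1, a2]
        · rw [(Rm3_mul D.x D.y (mat g) 3).1, a3]
      · intro j hj
        obtain ⟨b0, b1, b2⟩ := h j hj
        obtain ⟨-, e1, e2, e3⟩ := Rm3_mul D.x D.y (mat g) j
        rw [mat_mul, mat_r, e1, e2, e3]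
        exact ⟨b0, b1, D.i2.range.sub_mem b1 b2⟩

/-- the elements of the group generated by the first two generators -/
theorem P01_closure {g : HL S} (hg : g ∈ closure ({D.r 0, D.r 1} : Set (HL S))) (j : Fin 4) :
    mat g 2 j = (1 : Matrix (Fin 4) (Fin 4) S) 2 j ∧
    mat g 3 j = (1 : Matrix (Fin 4) (Fin 4) S) 3 j := by
  refine closure_induct (P := fun g => mat g 2 j = (1 : Matrix (Fin 4) (Fin 4) S) 2 j ∧
    mat g 3 j = (1 : Matrix (Fin 4) (Fin 4) S) 3 j) ?_ ?_ ?_ hg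
  · rintro s (rfl | rfl)
    · exact D.r_sq 0
    · exact D.r_sq 1
  · exact ⟨rfl, rfl⟩
  · rintro s (rfl | rfl) g ⟨h1, h2⟩
    · obtain ⟨-, -, e2, e3⟩ := Rm0_mul D.x D.y (mat g) j
      rw [mat_mul, mat_r, e2, e3]
      exact ⟨h1, h2⟩
    · obtain ⟨-, -, e2, e3⟩ := Rm1_mul D.x D.y (mat g) j
      rw [mat_mul, mat_r, e2, e3]
      exact ⟨h1, h2⟩

/-- the elements of the group generated by the last two generators -/
theorem P23_closure {g : HL S} (hg : g ∈ closure ({D.r 2, D.r 3} : Set (HL S))) (j : Fin 4) :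
    mat g 0 j = (1 : Matrix (Fin 4) (Fin 4) S) 0 j ∧
    mat g 1 j = (1 : Matrix (Fin 4) (Fin 4) S) 1 j := by
  refine closure_induct (P := fun g => mat g 0 j = (1 : Matrix (Fin 4) (Fin 4) S) 0 j ∧
    mat g 1 j = (1 : Matrix (Fin 4) (Fin 4) S) 1 j) ?_ ?_ ?_ hg
  · rintro s (rfl | rfl)
    · exact D.r_sq 2
    · exact D.r_sq 3
  · exact ⟨rfl, rfl⟩
  · rintro s (rfl | rfl) g ⟨h1, h2⟩
    · obtain ⟨e0, e1, -, -⟩ := Rm2_mul D.x D.y (mat g) j
      rw [mat_mul, mat_r, e0, e1]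
      exact ⟨h1, h2⟩
    · obtain ⟨e0, e1, -, -⟩ := Rm3_mul D.x D.y (mat g) j
      rw [mat_mul, mat_r, e0, e1]
      exact ⟨h1, h2⟩

theorem pow_eq (n : ℕ) : mat ((D.r 1 * D.r 2) ^ n) = Um D.x D.y n ∧
    ((D.r 1 * D.r 2) ^ n).2 = 1 := by
  refine ⟨?_, ?_⟩
  · rw [mat_pow, mat_mul, mat_r, mat_r, Um_pow]
  · simp [r]

end LinData

end Pool.Agent.Lib.MP_4f2bc5_co
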