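import Pool.Agent.Lib.MP_4f2bc5_co.Linear2

/-!
# The linear construction, third part: the intersection of the two maximal parabolic subgroups
-/

set_option autoImplicit false

namespace Pool.Agent.Lib.MP_4f2bc5_co

open Subgroup Matrix

namespace LinData

variable {N p : ℕ} {L S : Type} [CommRing L] [CommRing S] (D : LinData N p L S)

theorem det_special (c1 c2 g11 g12 g21 g22 f1 f2 : S) :
    (!![1, 0, 0, 0; c1, g11, g12, f1; c2, g21, g22, f2; 0, 0, 0, 1] :
      Matrix (Fin 4) (Fin 4) S).det = g11 * g22 - g12 * g21 := by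
  simp [Matrix.det_succ_row_zero, Fin.sum_univ_succ, Fin.succAbove]
  ring

/-- the ring computation -/
theorem mid_ring (a1 a2 b1 b2 : L) (n11 : ℕ) {g11 g12 g21 g22 : S} (hg11 : g11 = (n11 : S))
    (h01 : -(D.x * g11) + 2 * (D.i1 a1 - D.i1 a2) * (g11 - g21) = -D.x)
    (h02 : -(D.x * g12) + 2 * (D.i1 a1 - D.i1 a2) * (g12 - g22) = 0)
    (h31 : 2 * (D.i2 b1 - D.i2 b2) * (g11 - g21) - D.y * g21 = 0)
    (h32 : 2 * (D.i2 b1 - D.i2 b2) * (g12 - g22) - D.y * g22 = -D.y)
    (h03 : -(D.x * D.i2 b1) + 2 * (D.i1 a1 - D.i1 a2) * (D.i2 b1 - D.i2 b2) - D.y * D.i1 a2 = 0)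
    (q0 : (D.i1 a1 - D.i1 a2) ^ 2 = D.x * D.i1 a1)
    (q3 : (D.i2 b1 - D.i2 b2) ^ 2 = D.y * D.i2 b2)
    (hdet : g11 * g22 - g12 * g21 = 1) :
    ∃ n : ℕ, D.i1 a1 = (n : S) ^ 2 * D.x ∧ g11 = 1 + 2 * (n : S) ∧ g12 = -(2 * (n : S)) ∧
      D.i2 b1 = ((n : S) ^ 2 + n) * D.y ∧ D.i1 a2 = ((n : S) ^ 2 - n) * D.x ∧
      g21 = 2 * (n : S) ∧ g22 = 1 - 2 * (n : S) ∧ D.i2 b2 = (n : S) ^ 2 * D.y := by
  have hbeta : g12 - g22 = -1 := by
    apply D.x_cancel
    linear_combination (g12 - g22) * h01 - (g11 - g21) * h02 - D.x * hdet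
  have halpha : g11 - g21 = 1 := by
    apply D.y_cancel
    linear_combination (-(g12 - g22)) * h31 + (g11 - g21) * h32 + D.y * hdet
  have hg21 : g21 = g11 - 1 := by linear_combination -halpha
  have hg12 : g12 = 1 - g11 := by
    linear_combination hdet + g11 * hbeta - g12 * halpha
  have hg22 : g22 = 2 - g11 := by linear_combination hg12 - hbeta
  -- the parameter
  have e1 : D.xi * ((n11 : L) - 1) = 2 * (a1 - a2) := by
    apply D.inj1
    rw [map_mul, map_mul, map_sub, map_sub, map_natCast, map_one, map_ofNat, ← hg11]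
    change D.x * (g11 - 1) = 2 * (D.i1 a1 - D.i1 a2)
    linear_combination -h01 + 2 * (D.i1 a1 - D.i1 a2) * halpha
  have e2 : D.xi * ((n11 : L) - 1) = 2 * (b1 - b2) := by
    apply D.inj2
    rw [map_mul, map_mul, map_sub, map_sub, map_natCast, map_one, map_ofNat, ← hg11]
    change D.y * (g11 - 1) = 2 * (D.i2 b1 - D.i2 b2)
    linear_combination -h31 + 2 * (D.i2 b1 - D.i2 b2) * halpha - D.y * hg21
  have hxi := D.xi_mul
  obtain ⟨k, hk⟩ := D.half (D.xiInv * (a1 - a2)) ((n11 : ℤ) - 1) (by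
    push_cast
    linear_combination (-D.xiInv) * e1 + ((n11 : L) - 1) * hxi)
  have ht : (n11 : L) - 1 = 2 * (k : L) := by
    rw [← hk]
    linear_combination D.xiInv * e1 - ((n11 : L) - 1) * hxi
  have ht' : g11 = 1 + 2 * (k : S) := by
    have := congrArg D.i1 ht
    rw [map_sub, map_mul, map_natCast, map_one, map_ofNat, map_natCast, ← hg11] at this
    linear_combination this
  -- the two error terms
  obtain ⟨A, hA⟩ : ∃ A, A = a1 - a2 - k * D.xi := ⟨_, rfl⟩
  obtain ⟨B, hB⟩ : ∃ B, B = b1 - b2 - k * D.xi := ⟨_, rfl⟩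
  have hA2 : 2 * A = 0 := by
    rw [hA]
    linear_combination -e1 + D.xi * ht
  have hB2 : 2 * B = 0 := by
    rw [hB]
    linear_combination -e2 + D.xi * ht
  have hAA := D.sqz A hA2
  have hBB := D.sqz B hB2
  have f1 : (a1 - a2) ^ 2 = D.xi * a1 := by
    apply D.inj1
    rw [map_pow, map_sub, map_mul]
    exact q0
  have f2 : (b1 - b2) ^ 2 = D.xi * b2 := by
    apply D.inj2
    rw [map_pow, map_sub, map_mul]
    exact q3
  have ha1 : a1 = k ^ 2 * D.xi := by
    have h1 : D.xi * a1 = (k : L) ^ 2 * D.xi ^ 2 := by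
      rw [← f1]
      have : a1 - a2 = k * D.xi + A := by rw [hA]; ring
      rw [this]
      linear_combination hAA + (k : L) * D.xi * hA2
    linear_combination D.xiInv * h1 + ((k : L) ^ 2 * D.xi - a1) * hxi
  have hb2 : b2 = k ^ 2 * D.xi := by
    have h1 : D.xi * b2 = (k : L) ^ 2 * D.xi ^ 2 := by
      rw [← f2]
      have : b1 - b2 = k * D.xi + B := by rw [hB]; ring
      rw [this]
      linear_combination hBB + (k : L) * D.xi * hB2
    linear_combination D.xiInv * h1 + ((k : L) ^ 2 * D.xi - b2) * hxi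
  have ha2 : a2 = k ^ 2 * D.xi - k * D.xi - A := by rw [hA, ← ha1]; ring
  have hb1 : b1 = k ^ 2 * D.xi + k * D.xi + B := by rw [hB, ← hb2]; ring
  -- images
  have iA2 : 2 * D.i1 A = 0 := by
    have := congrArg D.i1 hA2
    rwa [map_mul, map_ofNat, map_zero] at this
  have iB2 : 2 * D.i2 B = 0 := by
    have := congrArg D.i2 hB2
    rwa [map_mul, map_ofNat, map_zero] at this
  have ia1 : D.i1 a1 = (k : S) ^ 2 * D.x := by
    rw [ha1, map_mul, map_pow, map_natCast]
    rfl
  have ib2 : D.i2 b2 = (k : S) ^ 2 * D.y := by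
    rw [hb2, map_mul, map_pow, map_natCast]
    rfl
  have ia2 : D.i1 a2 = (k : S) ^ 2 * D.x - k * D.x - D.i1 A := by
    rw [ha2, map_sub, map_sub, map_mul, map_mul, map_pow, map_natCast]
    rfl
  have ib1 : D.i2 b1 = (k : S) ^ 2 * D.y + k * D.y + D.i2 B := by
    rw [hb1, map_add, map_add, map_mul, map_mul, map_pow, map_natCast]
    rfl
  have hcross : D.y * D.i1 A = D.x * D.i2 B := by
    rw [ia1, ia2, ib1, ib2] at h03
    linear_combination h03 - (k : S) * D.y * iA2 - (k : S) * D.x * iB2 - D.i2 B * iA2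
  have hx1 : D.x * D.i1 D.xiInv = 1 := by rw [x, ← map_mul, D.xi_mul, map_one]
  have hy1 : D.y * D.i2 D.xiInv = 1 := by rw [y, ← map_mul, D.xi_mul, map_one]
  obtain ⟨j, hj1, hj2⟩ := D.inter (D.xiInv * A) (D.xiInv * B) (by
    rw [map_mul, map_mul]
    apply D.x_cancel
    apply D.y_cancel
    linear_combination hcross + D.y * D.i1 A * hx1 - D.x * D.i2 B * hy1)
  have hAj : A = j * D.xi := by
    linear_combination D.xi * hj1 - A * hxi
  have hBj : B = j * D.xi := by
    linear_combination D.xi * hj2 - B * hxi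
  have j2 : 2 * (j : L) = 0 := by
    rw [← hj1]
    linear_combination D.xiInv * hA2
  have jj : (j : L) * j = 0 := by
    rw [← hj1]
    linear_combination D.xiInv ^ 2 * hAA
  have j2' : 2 * (j : S) = 0 := by
    have := congrArg D.i1 j2
    rwa [map_mul, map_ofNat, map_zero, map_natCast] at this
  have jj' : (j : S) * j = 0 := by
    have := congrArg D.i1 jj
    rwa [map_mul, map_zero, map_natCast] at this
  have iAj : D.i1 A = j * D.x := by rw [hAj, map_mul, map_natCast]; rfl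
  have iBj : D.i2 B = j * D.y := by rw [hBj, map_mul, map_natCast]; rfl
  refine ⟨k + j, ?_, ?_, ?_, ?_, ?_, ?_, ?_, ?_⟩
  · rw [ia1]
    push_cast
    linear_combination (-(k : S)) * D.x * j2' - D.x * jj'
  · push_cast
    linear_combination ht' - j2'
  · push_cast
    linear_combination hg12 - ht' + j2'
  · rw [ib1, iBj]
    push_cast
    linear_combination (-(k : S)) * D.y * j2' - D.y * jj'
  · rw [ia2, iAj]
    push_cast
    linear_combination (-(k : S)) * D.x * j2' - D.x * jj'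
  · push_cast
    linear_combination hg21 + ht' - j2'
  · push_cast
    linear_combination hg22 - ht' + j2'
  · rw [ib2]
    push_cast
    linear_combination (-(k : S)) * D.y * j2' - D.y * jj'

theorem mid_alg {g : HL S} (hA : D.PA g) (hB : D.PB g) (hI : D.Inv g) (hs : g.2 = 1) :
    ∃ n : ℕ, mat g = Um D.x D.y n := by
  obtain ⟨⟨r30, r31, r32, r33⟩, hA⟩ := hA
  obtain ⟨⟨r00, r01, r02, r03⟩, hB⟩ := hB
  obtain ⟨hBf, hQf, hdet⟩ := hI
  obtain ⟨-, ⟨a1, ha1⟩, ⟨a2, ha2⟩⟩ := hA 0 (by decide)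
  obtain ⟨-, ⟨a11, ha11⟩, -⟩ := hA 1 (by decide)
  obtain ⟨⟨b1, hb1⟩, ⟨b2, hb2⟩, -⟩ := hB 3 (by decide)
  obtain ⟨⟨b11, hb11⟩, -, -⟩ := hB 1 (by decide)
  have hM : mat g = !![1, 0, 0, 0; mat g 1 0, mat g 1 1, mat g 1 2, mat g 1 3;
      mat g 2 0, mat g 2 1, mat g 2 2, mat g 2 3; 0, 0, 0, 1] := by
    ext i j
    fin_cases i <;> fin_cases j <;>
      simp [r00, r01, r02, r03, r30, r31, r32, r33]
  rw [hs] at hdet
  rw [hM, det_special] at hdet
  have h01 := hBf 0 1
  have h02 := hBf 0 2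
  have h31 := hBf 3 1
  have h32 := hBf 3 2
  have h03 := hBf 0 3
  have q0 := hQf 0
  have q3 := hQf 3
  simp only [Bf, r00, r01, r02, r03, r30, r31, r32, r33] at h01 h02 h31 h32 h03
  simp only [Qf, r00, r01, r02, r03, r30, r31, r32, r33] at q0 q3
  simp [Matrix.one_apply] at h01 h02 h31 h32 h03 q0 q3 hdet
  -- integers
  obtain ⟨n11, hn1, hn2⟩ := D.inter a11 b11 (ha11.trans hb11.symm)
  have hg11 : mat g 1 1 = (n11 : S) := by rw [← ha11, hn1, map_natCast]
  obtain ⟨n, e1, e2, e3, e4, e5, e6, e7, e8⟩ := D.mid_ring a1 a2 b1 b2 n11 hg11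
    (g12 := mat g 1 2) (g21 := mat g 2 1) (g22 := mat g 2 2)
    (by rw [ha1, ha2]; linear_combination h01) (by rw [ha1, ha2]; linear_combination h02)
    (by rw [hb1, hb2]; linear_combination h31) (by rw [hb1, hb2]; linear_combination h32)
    (by rw [ha1, ha2, hb1, hb2]; linear_combination h03)
    (by rw [ha1, ha2]; linear_combination q0)
    (by rw [hb1, hb2]; linear_combination q3) hdet
  refine ⟨n, ?_⟩
  rw [hM, ← ha1, ← ha2, ← hb1, ← hb2, e1, e2, e3, e4, e5, e6, e7, e8]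
  rfl

theorem exists_nat_pow (hN : 1 ≤ N) (n : ℤ) : ∃ k : ℕ, (D.r 1 * D.r 2) ^ n = (D.r 1 * D.r 2) ^ k := by
  have h1 : (D.r 1 * D.r 2) ^ N = 1 := by
    obtain ⟨h1, h2⟩ := D.pow_eq N
    apply ext_HL
    · rw [h1, mat_one, (D.char N).2 dvd_rfl, Um_zero]
    · rw [h2]; rfl
  have hN0 : (N : ℤ) ≠ 0 := by exact_mod_cast (by omega : N ≠ 0)
  refine ⟨(n % N).toNat, ?_⟩
  have h2 : ((n % N).toNat : ℤ) = n % N := Int.toNat_of_nonneg (Int.emod_nonneg _ hN0)
  have h3 : n = n % N + N * (n / N) := (Int.emod_add_mul_ediv n N).symm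
  rw [← _root_.zpow_natCast, h2]
  conv_lhs => rw [h3]
  rw [_root_.zpow_add, _root_.zpow_mul, _root_.zpow_natCast, h1, _root_.one_zpow, mul_one]

theorem order_12 (n : ℕ) (h : mat ((D.r 1 * D.r 2) ^ n) 1 0 = 0)
    (h' : mat ((D.r 1 * D.r 2) ^ n) 1 3 = 0 ∨ mat ((D.r 1 * D.r 2) ^ n) 2 0 = 0) :
    (D.r 1 * D.r 2) ^ n = 1 := by
  obtain ⟨h1, h2⟩ := D.pow_eq n
  have e1 : (n : S) ^ 2 = 0 := by
    apply D.x_cancel
    rw [h1] at h
    simp only [Um, Matrix.of_apply, Matrix.cons_val', Matrix.cons_val_zero, Matrix.cons_val_one] at h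
    linear_combination h
  have e2 : (n : S) = 0 := by
    rcases h' with h' | h'
    · apply D.y_cancel
      rw [h1] at h'
      have h3 : ((n : S) ^ 2 + n) * D.y = 0 := h'
      linear_combination h3 - D.y * e1
    · apply D.x_cancel
      rw [h1] at h'
      have h3 : ((n : S) ^ 2 - n) * D.x = 0 := h'
      linear_combination -h3 + D.x * e1
  apply ext_HL
  · rw [h1, e2, Um_zero, mat_one]
  · rw [h2]; rfl

theorem core (hN : 1 ≤ N) (h1S : (1 : S) ≠ 0) : Core D.r := by
  have hsgn : ∀ i, (D.r i).2 = -1 := fun i => rfl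
  have h12mem : ∀ n : ℕ, (D.r 1 * D.r 2) ^ n ∈ closure ({D.r 1, D.r 2} : Set (HL S)) := fun n =>
    pow_mem (mul_mem (subset_closure (by simp)) (subset_closure (by simp))) n
  refine ⟨D.r_sq, ?_, D.r_c02, D.r_c03, D.r_c13, ?_, ?_, ?_, ?_, ?_, ?_⟩
  · intro i hi
    have := congrArg Prod.snd hi
    rw [hsgn] at this
    have h2 : ((1 : HL S)).2 = 1 := rfl
    rw [h2] at this
    exact absurd this (by decide)
  · intro h
    have h2 := congrFun (congrFun (congrArg mat h) 0) 1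
    rw [mat_r, mat_r] at h2
    simp [Rm] at h2
    exact h1S h2
  · intro h
    have h2 := congrFun (congrFun (congrArg mat h) 1) 0
    rw [mat_r, mat_r] at h2
    simp [Rm] at h2
    exact h1S (D.x_cancel (by rw [h2, zero_mul, zero_mul]))
  · intro h
    have h2 := congrFun (congrFun (congrArg mat h) 3) 2
    rw [mat_r, mat_r] at h2
    simp [Rm] at h2
    exact h1S h2.symm
  · intro g hA hB
    have hr1A : D.r 1 ∈ closure ({D.r 0, D.r 1, D.r 2} : Set (HL S)) := subset_closure (by simp)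
    have hr1B : D.r 1 ∈ closure ({D.r 1, D.r 2, D.r 3} : Set (HL S)) := subset_closure (by simp)
    have key : ∀ g, g ∈ closure ({D.r 0, D.r 1, D.r 2} : Set (HL S)) →
        g ∈ closure ({D.r 1, D.r 2, D.r 3} : Set (HL S)) → g.2 = 1 →
        g ∈ closure ({D.r 1, D.r 2} : Set (HL S)) := by
      intro g hA hB hs
      have himg : ({D.r 0, D.r 1, D.r 2} : Set (HL S)) = D.r '' {0, 1, 2} := by
        rw [Set.image_insert_eq, Set.image_insert_eq, Set.image_singleton]
      obtain ⟨n, hn⟩ := D.mid_alg (D.PA_closure hA) (D.PB_closure hB)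
        (D.inv_closure {0, 1, 2} (by rw [← himg]; exact hA)) hs
      obtain ⟨h1, h2⟩ := D.pow_eq n
      have : g = (D.r 1 * D.r 2) ^ n := ext_HL (hn.trans h1.symm) (hs.trans h2.symm)
      rw [this]
      exact h12mem n
    rcases Int.units_eq_one_or g.2 with h1 | h1
    · exact key g hA hB h1
    · have h2 : (D.r 1 * g).2 = 1 := by
        rw [Prod.snd_mul, hsgn, h1]
        decide
      have h3 := key _ (mul_mem hr1A hA) (mul_mem hr1B hB) h2
      have h4 := mul_mem (subset_closure (show D.r 1 ∈ ({D.r 1, D.r 2} : Set (HL S)) by simp)) h3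
      rwa [← mul_assoc, D.r_sq, one_mul] at h4
  · intro g h1 h2
    have key : ∀ n : ℕ, (D.r 1 * D.r 2) ^ n ∈ closure ({D.r 0, D.r 1} : Set (HL S)) →
        (D.r 1 * D.r 2) ^ n = 1 := by
      intro n hn
      have e0 := (D.P01_closure hn 0).1
      have e1 := (D.P01_closure hn 1).1
      have e2 := (D.P01_closure hn 3).1
      obtain ⟨h1, h2⟩ := D.pow_eq n
      rw [h1] at e0 e1 e2
      have e0' : ((n : S) ^ 2 - n) * D.x = 0 := e0
      have e2' : (n : S) ^ 2 * D.y = 0 := e2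
      have f1 : (n : S) ^ 2 = 0 := by
        apply D.y_cancel
        linear_combination e2'
      apply D.order_12
      · rw [h1]
        change (n : S) ^ 2 * D.x = 0
        rw [f1, zero_mul]
      · right
        rw [h1]
        exact e0'
    obtain ⟨n, hn⟩ := mem_closure_two (D.r_sq 1) (D.r_sq 2) h2
    obtain ⟨k, hk⟩ := D.exists_nat_pow hN n
    rw [hk] at hn
    rcases hn with hn | hn
    · left
      rw [hn] at h1 ⊢
      exact key k h1
    · right
      have h3 : (D.r 1 * D.r 2) ^ k = g * D.r 1 := by rw [hn, mul_assoc, D.r_sq, mul_one]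
      have h4 : (D.r 1 * D.r 2) ^ k ∈ closure ({D.r 0, D.r 1} : Set (HL S)) := by
        rw [h3]
        exact mul_mem h1 (subset_closure (by simp))
      rw [hn, key k h4, one_mul]
  · intro g h1 h2
    have key : ∀ n : ℕ, (D.r 1 * D.r 2) ^ n ∈ closure ({D.r 2, D.r 3} : Set (HL S)) →
        (D.r 1 * D.r 2) ^ n = 1 := by
      intro n hn
      have e0 := (D.P23_closure hn 0).2
      have e2 := (D.P23_closure hn 3).2
      exact D.order_12 n e0 (Or.inl e2)
    obtain ⟨n, hn⟩ := mem_closure_two (D.r_sq 1) (D.r_sq 2) h2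
    rcases hn with hn | hn
    · left
      obtain ⟨k, hk⟩ := D.exists_nat_pow hN n
      rw [hk] at hn
      rw [hn] at h1 ⊢
      exact key k h1
    · right
      have h3 : (D.r 1 * D.r 2) ^ (n + 1) = g * D.r 2 := by
        rw [hn, _root_.zpow_add, _root_.zpow_one]
        simp only [mul_assoc]
      obtain ⟨k, hk⟩ := D.exists_nat_pow hN (n + 1)
      rw [hk] at h3
      have h4 : (D.r 1 * D.r 2) ^ k ∈ closure ({D.r 2, D.r 3} : Set (HL S)) := by
        rw [h3]
        exact mul_mem h1 (subset_closure (by simp))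
      have h5 := key k h4
      rw [h5] at h3
      calc g = g * D.r 2 * D.r 2 := by rw [mul_assoc, D.r_sq, mul_one]
        _ = D.r 2 := by rw [← h3, one_mul]

theorem orderOf_12 (hN : 1 ≤ N) : orderOf (D.r 1 * D.r 2) = N := by
  rw [orderOf_eq_iff (by omega)]
  refine ⟨?_, ?_⟩
  · obtain ⟨h1, h2⟩ := D.pow_eq N
    apply ext_HL
    · rw [h1, mat_one, (D.char N).2 dvd_rfl, Um_zero]
    · rw [h2]; rfl
  · intro m hm hm0 h
    obtain ⟨h1, h2⟩ := D.pow_eq m
    rw [h, mat_one] at h1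
    have e0 : (0 : S) = (m : S) ^ 2 * D.x := congrFun (congrFun h1 1) 0
    have e3 : (0 : S) = ((m : S) ^ 2 + m) * D.y := congrFun (congrFun h1 1) 3
    have f0 : (m : S) ^ 2 = 0 := by
      apply D.x_cancel
      linear_combination -e0
    have f1 : (m : S) = 0 := by
      apply D.y_cancel
      linear_combination -e3 - D.y * f0
    have := Nat.le_of_dvd hm0 ((D.char m).1 f1)
    omega

end LinData

end Pool.Agent.Lib.MP_4f2bc5_co
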