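import Pool.Agent.Lib.MP_4f2bc5_co.Linear3

/-!
# The linear construction, fourth part: the duality and the order of the first rotation
-/

set_option autoImplicit false

namespace Pool.Agent.Lib.MP_4f2bc5_co

open Subgroup Matrix

namespace LinData

variable {N p : ℕ} {L S : Type} [CommRing L] [CommRing S] (D : LinData N p L S)

/-- the duality on matrices -/
def deltaM : Matrix (Fin 4) (Fin 4) S ≃* Matrix (Fin 4) (Fin 4) S where
  toFun M := Matrix.of fun i j => D.σ (M i.rev j.rev)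
  invFun M := Matrix.of fun i j => D.σ.symm (M i.rev j.rev)
  left_inv M := by
    ext i j
    simp
  right_inv M := by
    ext i j
    simp
  map_mul' M M' := by
    ext i j
    simp only [Matrix.of_apply, Matrix.mul_apply, map_sum, map_mul]
    exact (Equiv.sum_comp Fin.revPerm (fun k => D.σ (M i.rev k) * D.σ (M' k j.rev))).symm

/-- the duality on the ambient group -/
def delta : HL S ≃* HL S :=
  MulEquiv.prodCongr (Units.mapEquiv D.deltaM) (MulEquiv.refl _)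

theorem delta_mat (g : HL S) (i j : Fin 4) : mat (D.delta g) i j = D.σ (mat g i.rev j.rev) := rfl

theorem delta_r (k : Fin 4) : D.delta (D.r k) = D.r k.rev := by
  have hx : D.σ D.x = D.y := D.σ1 _
  have hy : D.σ D.y = D.x := D.σ2 _
  have h2 : D.σ 2 = 2 := map_ofNat D.σ 2
  apply ext_HL
  · ext i j
    rw [delta_mat, mat_r, mat_r]
    fin_cases k <;> fin_cases i <;> fin_cases j <;>
      simp [Rm, Fin.rev, hx, hy, h2]
  · rfl

/-- the Chebyshev-like numbers -/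
def cheb : ℕ → S
  | 0 => 0
  | k + 1 => D.i1 D.z * cheb k + D.i1 D.w ^ k

theorem ZW : D.i1 D.z * D.i1 D.w = 1 := by rw [← map_mul, D.zw, map_one]

theorem x_eq : D.x = 2 + D.i1 D.z + D.i1 D.w := by
  rw [x, xi, map_add, map_add, map_ofNat]

theorem cheb_rec (k : ℕ) :
    D.cheb (k + 2) = (D.x - 2) * D.cheb (k + 1) - D.cheb k := by
  have h := D.ZW
  have h1 : D.cheb (k + 1) = D.i1 D.z * D.cheb k + D.i1 D.w ^ k := rfl
  have h2 : D.cheb (k + 2) = D.i1 D.z * D.cheb (k + 1) + D.i1 D.w ^ (k + 1) := rfl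
  rw [h2, x_eq, pow_succ]
  linear_combination (-(D.i1 D.w)) * h1 - D.cheb k * h

theorem cheb_sum (k : ℕ) :
    D.i1 D.z ^ k * D.cheb (k + 1) = ∑ j ∈ Finset.range (k + 1), (D.i1 D.z ^ 2) ^ j := by
  induction k with
  | zero =>
    have : D.cheb (0 + 1) = D.i1 D.z * 0 + D.i1 D.w ^ 0 := rfl
    rw [this]
    simp
  | succ k ih =>
    have h2 : D.cheb (k + 1 + 1) = D.i1 D.z * D.cheb (k + 1) + D.i1 D.w ^ (k + 1) := rfl
    have h3 : D.i1 D.z ^ (k + 1) * D.i1 D.w ^ (k + 1) = 1 := by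
      rw [← mul_pow, D.ZW, one_pow]
    rw [geom_sum_succ, ← ih, h2]
    linear_combination h3

theorem sum_two (z : L) (n : ℕ) :
    (1 + z) * ∑ j ∈ Finset.range n, (z ^ 2) ^ j = (1 + z ^ n) * ∑ j ∈ Finset.range n, z ^ j := by
  have h1 : ∀ n : ℕ, (1 + z) * ∑ j ∈ Finset.range n, (z ^ 2) ^ j = ∑ j ∈ Finset.range (2 * n), z ^ j := by
    intro n
    induction n with
    | zero => simp
    | succ n ih =>
      rw [Finset.sum_range_succ, mul_add, ih, show 2 * (n + 1) = 2 * n + 1 + 1 by ring,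
        Finset.sum_range_succ, Finset.sum_range_succ]
      ring
  rw [h1, two_mul, Finset.sum_range_add]
  simp only [pow_add]
  rw [← Finset.mul_sum]
  ring

theorem cheb_p (hp : 1 ≤ p) : D.cheb p = 0 ∧ D.cheb (p - 1) = -1 := by
  obtain ⟨k, rfl⟩ : ∃ k, p = k + 1 := ⟨p - 1, by omega⟩
  have h0 : ∑ j ∈ Finset.range (k + 1), (D.z ^ 2) ^ j = 0 := by
    have h1 := sum_two D.z (k + 1)
    rw [D.zsum, mul_zero] at h1
    have h2 := D.zv
    linear_combination D.v * h1 - (∑ j ∈ Finset.range (k + 1), (D.z ^ 2) ^ j) * h2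
  have h1 := D.cheb_sum k
  have h2 : ∑ j ∈ Finset.range (k + 1), (D.i1 D.z ^ 2) ^ j = 0 := by
    have := congrArg D.i1 h0
    rw [map_sum, map_zero] at this
    simpa only [map_pow] using this
  rw [h2] at h1
  have h3 : D.i1 D.z ^ k * D.i1 D.w ^ k = 1 := by rw [← mul_pow, D.ZW, one_pow]
  have h4 : D.cheb (k + 1) = 0 := by
    linear_combination D.i1 D.w ^ k * h1 - D.cheb (k + 1) * h3
  refine ⟨h4, ?_⟩
  have h5 : D.i1 D.z * D.cheb k + D.i1 D.w ^ k = 0 := h4
  have h6 : D.i1 D.w ^ (k + 1) = 1 := by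
    have h7 : (D.i1 D.z * D.i1 D.w) ^ (k + 1) = 1 := by rw [D.ZW, one_pow]
    rw [mul_pow, ← map_pow, D.zp, map_one, one_mul] at h7
    exact h7
  have h8 := D.ZW
  rw [Nat.add_sub_cancel]
  rw [pow_succ] at h6
  linear_combination D.i1 D.w * h5 - D.cheb k * h8 - h6

/-- the rotation -/
def T : Matrix (Fin 4) (Fin 4) S := Rm D.x D.y 0 * Rm D.x D.y 1

theorem T_eq : D.T = !![D.x - 1, -1, 2, 0; D.x, -1, 2, 0; 0, 0, 1, 0; 0, 0, 0, 1] := by
  ext i j
  fin_cases i <;> fin_cases j <;> simp [T, Rm, Matrix.mul_apply, Fin.sum_univ_four] <;> ring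

/-- the projection to the first two coordinates -/
def D0 (S : Type) [CommRing S] : Matrix (Fin 4) (Fin 4) S :=
  !![1, 0, 0, 0; 0, 1, 0, 0; 0, 0, 0, 0; 0, 0, 0, 0]

theorem T_sq : D.T * (D.T * D0 S) = (D.x - 2) • (D.T * D0 S) - D0 S := by
  rw [T_eq]
  ext i j
  fin_cases i <;> fin_cases j <;> simp [D0, Matrix.mul_apply, Fin.sum_univ_four] <;> ring

theorem T_pow (k : ℕ) : D.T ^ (k + 1) * D0 S = D.cheb (k + 1) • (D.T * D0 S) - D.cheb k • D0 S := by
  induction k with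
  | zero =>
    have h1 : D.cheb (0 + 1) = D.i1 D.z * 0 + D.i1 D.w ^ 0 := rfl
    have h0 : D.cheb 0 = 0 := rfl
    rw [h1, h0]
    simp
  | succ k ih =>
    rw [pow_succ', Matrix.mul_assoc, ih, Matrix.mul_sub, Matrix.mul_smul, Matrix.mul_smul, T_sq,
      show k + 1 + 1 = k + 2 by ring, cheb_rec]
    ext i j
    simp only [Matrix.sub_apply, Matrix.smul_apply, smul_eq_mul]
    ring

theorem T_pow_p (hp : 1 ≤ p) : D.T ^ p * D0 S = D0 S := by
  obtain ⟨h1, h2⟩ := D.cheb_p hp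
  obtain ⟨k, rfl⟩ : ∃ k, p = k + 1 := ⟨p - 1, by omega⟩
  rw [Nat.add_sub_cancel] at h2
  rw [T_pow, h1, h2]
  simp

theorem T_col3 (k : ℕ) (i : Fin 4) : (D.T ^ k) i 3 = (1 : Matrix (Fin 4) (Fin 4) S) i 3 := by
  induction k with
  | zero => rw [pow_zero]
  | succ k ih =>
    rw [pow_succ, Matrix.mul_apply, Fin.sum_univ_four, ← ih, T_eq]
    simp

theorem mat_T (k : ℕ) : mat ((D.r 0 * D.r 1) ^ k) = D.T ^ k := by
  rw [mat_pow, mat_mul, mat_r, mat_r, T]

theorem pow_p (hp : 1 ≤ p) : (D.r 0 * D.r 1) ^ p = 1 := by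
  obtain ⟨P, hP⟩ : ∃ P, P = mat ((D.r 0 * D.r 1) ^ p) := ⟨_, rfl⟩
  have hPT : P = D.T ^ p := by rw [hP, mat_T]
  have hmem : (D.r 0 * D.r 1) ^ p ∈ closure ({D.r 0, D.r 1} : Set (HL S)) :=
    pow_mem (mul_mem (subset_closure (by simp)) (subset_closure (by simp))) p
  have hrow := fun j => D.P01_closure hmem j
  rw [← hP] at hrow
  have hcol3 : ∀ i, P i 3 = (1 : Matrix (Fin 4) (Fin 4) S) i 3 := fun i => by
    rw [hPT, T_col3]
  have hD := D.T_pow_p hp
  rw [← hPT] at hD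
  have hcol0 : ∀ i, P i 0 = D0 S i 0 := fun i => by
    rw [← congrFun (congrFun hD i) 0]
    simp [D0, Matrix.mul_apply, Fin.sum_univ_four]
  have hcol1 : ∀ i, P i 1 = D0 S i 1 := fun i => by
    rw [← congrFun (congrFun hD i) 1]
    simp [D0, Matrix.mul_apply, Fin.sum_univ_four]
  have hPeq : P = !![1, 0, P 0 2, 0; 0, 1, P 1 2, 0; 0, 0, 1, 0; 0, 0, 0, 1] := by
    ext i j
    have e0 := hcol0 i
    have e1 := hcol1 i
    have e3 := hcol3 i
    have f2 := (hrow 2).1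
    have f3 := (hrow 2).2
    fin_cases i <;> fin_cases j <;> simp [D0] at e0 e1 e3 f2 f3 ⊢ <;> assumption
  have hcomm : D.T * P = P * D.T := by rw [hPT, ← pow_succ', ← pow_succ]
  have hdih : Rm D.x D.y 0 * (P * (Rm D.x D.y 0 * P)) = 1 := by
    have h1 : D.r 0 * ((D.r 0 * D.r 1) ^ p * (D.r 0 * (D.r 0 * D.r 1) ^ p)) = 1 := by
      have i0 : (D.r 0)⁻¹ = D.r 0 := inv_eq_of_mul_eq_one_left (D.r_sq 0)
      have i1 : (D.r 1)⁻¹ = D.r 1 := inv_eq_of_mul_eq_one_left (D.r_sq 1)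
      have h2 : D.r 0 * (D.r 0 * D.r 1) * (D.r 0)⁻¹ = (D.r 0 * D.r 1)⁻¹ := by
        rw [_root_.mul_inv_rev, i0, i1, ← mul_assoc, D.r_sq, one_mul]
      have h3 : D.r 0 * (D.r 0 * D.r 1) ^ p * (D.r 0)⁻¹ = ((D.r 0 * D.r 1) ^ p)⁻¹ := by
        rw [← inv_pow, ← h2, conj_pow]
      rw [i0] at h3
      rw [← mul_assoc, ← mul_assoc, h3, inv_mul_cancel]
    have h2 := congrArg mat h1
    rw [mat_mul, mat_mul, mat_mul, mat_r, ← hP, mat_one] at h2
    exact h2
  have k1 := congrFun (congrFun hcomm 1) 2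
  have k2 := congrFun (congrFun hdih 0) 2
  rw [hPeq, T_eq] at k1
  rw [hPeq] at k2
  simp [Matrix.mul_apply, Fin.sum_univ_four] at k1
  simp [Rm, Matrix.mul_apply, Fin.sum_univ_four] at k2
  have hv : P 1 2 = 0 := by linear_combination k2
  have hu : P 0 2 = 0 := by
    apply D.x_cancel
    rw [hv] at k1
    linear_combination k1
  apply ext_HL
  · rw [← hP, mat_one, hPeq, hu, hv]
    ext i j
    fin_cases i <;> fin_cases j <;> simp
  · simp [r]

theorem pow_eq_one (k : ℕ) (h : (D.r 0 * D.r 1) ^ k = 1) : p ∣ k := by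
  have h1 : ∀ k : ℕ, (D.T ^ k).mulVec ![1, 1 + D.i1 D.w, 0, 0] =
      D.i1 D.z ^ k • ![1, 1 + D.i1 D.w, 0, 0] := by
    intro k
    induction k with
    | zero => rw [pow_zero, pow_zero, Matrix.one_mulVec, one_smul]
    | succ k ih =>
      have h2 : D.T.mulVec ![1, 1 + D.i1 D.w, 0, 0] = D.i1 D.z • ![1, 1 + D.i1 D.w, 0, 0] := by
        have hz := D.ZW
        rw [T_eq]
        ext i
        fin_cases i
        · simp [Matrix.mulVec, dotProduct, Fin.sum_univ_four, x_eq]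
          ring
        · simp [Matrix.mulVec, dotProduct, Fin.sum_univ_four, x_eq]
          linear_combination -hz
        · simp [Matrix.mulVec, dotProduct, Fin.sum_univ_four]
        · simp [Matrix.mulVec, dotProduct, Fin.sum_univ_four]
      rw [pow_succ, ← Matrix.mulVec_mulVec, h2, Matrix.mulVec_smul, ih, smul_smul, pow_succ']
  have h2 := h1 k
  have h3 := congrArg mat h
  rw [mat_T, mat_one] at h3
  rw [h3, Matrix.one_mulVec] at h2
  have h4 := congrFun h2 0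
  simp at h4
  apply D.zord
  apply D.inj1
  rw [map_pow, map_one, ← h4]

theorem orderOf_01 (hp : 1 ≤ p) : orderOf (D.r 0 * D.r 1) = p :=
  Nat.dvd_antisymm (orderOf_dvd_of_pow_eq_one (D.pow_p hp)) (D.pow_eq_one _ (pow_orderOf_eq_one _))

end LinData

end Pool.Agent.Lib.MP_4f2bc5_co
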