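import Pool.Agent.Lib.MP_4f2bc5_co.Ring
import Pool.Agent.Lib.MP_4f2bc5_co.Even

/-!
# The mixing construction (p odd, q twice an odd number)
-/

set_option autoImplicit false

namespace Pool.Agent.Lib.MP_4f2bc5_co

open Subgroup DihedralGroup

/-- the input of the mixing construction -/
structure MixData (p m : ℕ) {G : Type} [Group G] (g : Fin 4 → G) : Prop where
  sq : ∀ i, g i * g i = 1
  c02 : g 0 * g 2 = g 2 * g 0
  c03 : g 0 * g 3 = g 3 * g 0
  c13 : g 1 * g 3 = g 3 * g 1
  mid : ∀ h, h ∈ closure ({g 0, g 1, g 2} : Set G) → h ∈ closure ({g 1, g 2, g 3} : Set G) →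
    h ∈ closure ({g 1, g 2} : Set G)
  pow01 : (g 0 * g 1) ^ p = 1
  ord12 : orderOf (g 1 * g 2) = m
  sgn : ∃ χ : G →* ℤˣ, ∀ i, χ (g i) = -1

/-- the sign on a dihedral group -/
def dsgn (n : ℕ) : DihedralGroup n →* ℤˣ where
  toFun
    | r _ => 1
    | sr _ => -1
  map_one' := rfl
  map_mul' := by
    rintro (i | i) (j | j) <;> simp

theorem dsgn_sr {n : ℕ} (i : ZMod n) : dsgn n (sr i) = -1 := rfl

theorem dsgn_one {n : ℕ} : dsgn n 1 = 1 := rfl

/-- the dihedral part of the generators -/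
def dd (p : ℕ) : Fin 4 → DihedralGroup p × DihedralGroup p
  | 0 => (sr 0, 1)
  | 1 => (sr 1, 1)
  | 2 => (1, sr 1)
  | 3 => (1, sr 0)

section Mix

variable {p m : ℕ} {G : Type} [Group G] (g : Fin 4 → G)

/-- the generators -/
def mx (p : ℕ) (i : Fin 4) : G × (DihedralGroup p × DihedralGroup p) := (g i, dd p i)

theorem dd_sq (p : ℕ) (i : Fin 4) : dd p i * dd p i = 1 := by
  fin_cases i <;> simp [dd]

theorem mx_sq (h : MixData p m g) (i : Fin 4) : mx g p i * mx g p i = 1 := by
  rw [mx, Prod.mk_mul_mk, h.sq, dd_sq]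
  rfl

theorem mx_c02 (h : MixData p m g) : mx g p 0 * mx g p 2 = mx g p 2 * mx g p 0 := by
  rw [mx, mx, Prod.mk_mul_mk, Prod.mk_mul_mk, h.c02]
  simp [dd]

theorem mx_c03 (h : MixData p m g) : mx g p 0 * mx g p 3 = mx g p 3 * mx g p 0 := by
  rw [mx, mx, Prod.mk_mul_mk, Prod.mk_mul_mk, h.c03]
  simp [dd]

theorem mx_c13 (h : MixData p m g) : mx g p 1 * mx g p 3 = mx g p 3 * mx g p 1 := by
  rw [mx, mx, Prod.mk_mul_mk, Prod.mk_mul_mk, h.c13]
  simp [dd]

/-- the total sign is trivial -/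
theorem mx_sgn (h : MixData p m g) (χ : G →* ℤˣ) (hχ : ∀ i, χ (g i) = -1)
    {X : Set (G × (DihedralGroup p × DihedralGroup p))} (hX : ∀ x ∈ X, ∃ i, x = mx g p i)
    {x : G × (DihedralGroup p × DihedralGroup p)} (hx : x ∈ closure X) :
    χ x.1 * dsgn p x.2.1 * dsgn p x.2.2 = 1 := by
  refine closure_induct (P := fun x => χ x.1 * dsgn p x.2.1 * dsgn p x.2.2 = 1) ?_ ?_ ?_ hx
  · intro s hs
    obtain ⟨i, rfl⟩ := hX s hs
    exact mx_sq g h i
  · simp
  · intro s hs y hy
    obtain ⟨i, rfl⟩ := hX s hs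
    have h1 : χ (mx g p i * y).1 = - χ y.1 := by
      rw [Prod.fst_mul, map_mul]
      have : (mx g p i).1 = g i := rfl
      rw [this, hχ, neg_mul, one_mul]
    have h2 : dsgn p (mx g p i * y).2.1 * dsgn p (mx g p i * y).2.2 =
        - (dsgn p y.2.1 * dsgn p y.2.2) := by
      rw [Prod.snd_mul, Prod.fst_mul, Prod.snd_mul, map_mul, map_mul]
      have h3 : dsgn p (mx g p i).2.1 * dsgn p (mx g p i).2.2 = -1 := by
        fin_cases i <;> rfl
      calc dsgn p (mx g p i).2.1 * dsgn p y.2.1 * (dsgn p (mx g p i).2.2 * dsgn p y.2.2)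
          = (dsgn p (mx g p i).2.1 * dsgn p (mx g p i).2.2) * (dsgn p y.2.1 * dsgn p y.2.2) := by
            rw [mul_mul_mul_comm]
        _ = - (dsgn p y.2.1 * dsgn p y.2.2) := by rw [h3, neg_mul, one_mul]
    rw [mul_assoc, h2, h1, neg_mul_neg, ← mul_assoc, hy]

theorem mx_fst (X : Set (Fin 4)) {x : G × (DihedralGroup p × DihedralGroup p)}
    (hx : x ∈ closure (mx g p '' X)) : x.1 ∈ closure (g '' X) := by
  have h1 : (MonoidHom.fst G (DihedralGroup p × DihedralGroup p)) x ∈
      (closure (mx g p '' X)).map (MonoidHom.fst G (DihedralGroup p × DihedralGroup p)) :=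
    ⟨x, hx, rfl⟩
  rw [MonoidHom.map_closure, Set.image_image] at h1
  exact h1

/-- lifting from the first factor -/
theorem mx_lift (X : Set (Fin 4)) {x : G} (hx : x ∈ closure (g '' X)) :
    ∃ y, y ∈ closure (mx g p '' X) ∧ y.1 = x := by
  have h1 : (closure (mx g p '' X)).map (MonoidHom.fst G (DihedralGroup p × DihedralGroup p)) =
      closure (g '' X) := by
    rw [MonoidHom.map_closure, Set.image_image]
    rfl
  rw [← h1] at hx
  obtain ⟨y, hy, hy2⟩ := hx
  exact ⟨y, hy, hy2⟩

theorem mx_snd_A (h : MixData p m g) {x : G × (DihedralGroup p × DihedralGroup p)}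
    (hx : x ∈ closure ({mx g p 0, mx g p 1, mx g p 2} : Set _)) : x.2.2 = 1 ∨ x.2.2 = sr 1 := by
  refine closure_induct (P := fun x => x.2.2 = 1 ∨ x.2.2 = sr 1) ?_ ?_ ?_ hx
  · rintro s (rfl | rfl | rfl) <;> exact mx_sq g h _
  · left; rfl
  · rintro s (rfl | rfl | rfl) y hy
    · have : (mx g p 0 * y).2.2 = y.2.2 := one_mul _
      rw [this]; exact hy
    · have : (mx g p 1 * y).2.2 = y.2.2 := one_mul _
      rw [this]; exact hy
    · have : (mx g p 2 * y).2.2 = sr 1 * y.2.2 := rfl
      rw [this]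
      rcases hy with hy | hy
      · right; rw [hy, mul_one]
      · left; rw [hy]; simp

theorem mx_snd_B (h : MixData p m g) {x : G × (DihedralGroup p × DihedralGroup p)}
    (hx : x ∈ closure ({mx g p 1, mx g p 2, mx g p 3} : Set _)) : x.2.1 = 1 ∨ x.2.1 = sr 1 := by
  refine closure_induct (P := fun x => x.2.1 = 1 ∨ x.2.1 = sr 1) ?_ ?_ ?_ hx
  · rintro s (rfl | rfl | rfl) <;> exact mx_sq g h _
  · left; rfl
  · rintro s (rfl | rfl | rfl) y hy
    · have : (mx g p 1 * y).2.1 = sr 1 * y.2.1 := rfl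
      rw [this]
      rcases hy with hy | hy
      · right; rw [hy, mul_one]
      · left; rw [hy]; simp
    · have : (mx g p 2 * y).2.1 = y.2.1 := one_mul _
      rw [this]; exact hy
    · have : (mx g p 3 * y).2.1 = y.2.1 := one_mul _
      rw [this]; exact hy

/-- an element of the first dihedral subgroup is determined by one component -/
theorem mx_inj01 (h : MixData p m g) {x : G × (DihedralGroup p × DihedralGroup p)}
    (hx : x ∈ closure ({mx g p 0, mx g p 1} : Set _)) (h1 : x.2.1 = 1) : x = 1 := by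
  have hp : (mx g p 0 * mx g p 1) ^ p = 1 := by
    have : mx g p 0 * mx g p 1 = (g 0 * g 1, (r 1, 1)) := by
      rw [mx, mx, Prod.mk_mul_mk]
      simp [dd]
    rw [this]
    ext
    · simp [h.pow01]
    · simp
    · simp
  obtain ⟨n, hn⟩ := mem_closure_two (mx_sq g h 0) (mx_sq g h 1) hx
  have hcomp : ((mx g p 0 * mx g p 1) ^ n).2.1 = r (n : ZMod p) := by
    have h2 : (mx g p 0 * mx g p 1).2.1 = r 1 := by
      change (sr 0 : DihedralGroup p) * sr 1 = r 1
      rw [sr_mul_sr]
      simp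
    have h3 : ((mx g p 0 * mx g p 1) ^ n).2.1 = (r 1 : DihedralGroup p) ^ n := by
      rw [← h2]
      rfl
    rw [h3, r_one_zpow]
  rcases hn with hn | hn
  · rw [hn, hcomp] at h1
    have h2 : (n : ZMod p) = 0 := by
      have : (r (n : ZMod p) : DihedralGroup p) = r 0 := h1
      exact r.inj this
    rw [ZMod.intCast_zmod_eq_zero_iff_dvd] at h2
    obtain ⟨k, hk⟩ := h2
    rw [hn, hk, zpow_mul, zpow_natCast, hp, one_zpow]
  · exfalso
    rw [hn] at h1
    have h2 : ((mx g p 0 * mx g p 1) ^ n * mx g p 0).2.1 =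
        ((mx g p 0 * mx g p 1) ^ n).2.1 * sr 0 := rfl
    rw [h2, hcomp, r_mul_sr] at h1
    exact absurd h1 (by intro h3; cases h3)

theorem mx_inj23 (h : MixData p m g) (hp' : (g 2 * g 3) ^ p = 1)
    {x : G × (DihedralGroup p × DihedralGroup p)}
    (hx : x ∈ closure ({mx g p 2, mx g p 3} : Set _)) (h1 : x.2.2 = 1) : x = 1 := by
  have hp : (mx g p 2 * mx g p 3) ^ p = 1 := by
    have : mx g p 2 * mx g p 3 = (g 2 * g 3, (1, r (-1))) := by
      rw [mx, mx, Prod.mk_mul_mk]
      simp [dd]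
    rw [this]
    ext
    · simp [hp']
    · simp
    · simp
  obtain ⟨n, hn⟩ := mem_closure_two (mx_sq g h 2) (mx_sq g h 3) hx
  have hcomp : ((mx g p 2 * mx g p 3) ^ n).2.2 = r (-(n : ZMod p)) := by
    have h2 : (mx g p 2 * mx g p 3).2.2 = (r 1)⁻¹ := by
      change (sr 1 : DihedralGroup p) * sr 0 = (r 1)⁻¹
      rw [sr_mul_sr]
      simp
    have h3 : ((mx g p 2 * mx g p 3) ^ n).2.2 = ((r 1 : DihedralGroup p)⁻¹) ^ n := by
      rw [← h2]
      rfl
    rw [h3, inv_zpow, r_one_zpow, inv_r]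
  rcases hn with hn | hn
  · rw [hn, hcomp] at h1
    have h2 : (n : ZMod p) = 0 := by
      have h3 : (r (-(n : ZMod p)) : DihedralGroup p) = r 0 := h1
      have h4 := r.inj h3
      exact neg_eq_zero.1 h4
    rw [ZMod.intCast_zmod_eq_zero_iff_dvd] at h2
    obtain ⟨k, hk⟩ := h2
    rw [hn, hk, zpow_mul, zpow_natCast, hp, one_zpow]
  · exfalso
    rw [hn] at h1
    have h2 : ((mx g p 2 * mx g p 3) ^ n * mx g p 2).2.2 =
        ((mx g p 2 * mx g p 3) ^ n).2.2 * sr 1 := rfl
    rw [h2, hcomp, r_mul_sr] at h1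
    exact absurd h1 (by intro h3; cases h3)

theorem mx_core (hp2 : 2 ≤ p) (hm : Odd m) (h : MixData p m g) (hp' : (g 2 * g 3) ^ p = 1) :
    Core (mx g p) := by
  have hne : ∀ i : Fin 4, mx g p i ≠ 1 := by
    intro i hi
    have h1 := congrArg Prod.snd hi
    have h2 : dd p i = 1 := h1
    fin_cases i
    · have h3 : (sr 0 : DihedralGroup p) = 1 := congrArg Prod.fst h2
      cases h3
    · have h3 : (sr 1 : DihedralGroup p) = 1 := congrArg Prod.fst h2
      cases h3
    · have h3 : (sr 1 : DihedralGroup p) = 1 := congrArg Prod.snd h2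
      cases h3
    · have h3 : (sr 0 : DihedralGroup p) = 1 := congrArg Prod.snd h2
      cases h3
  have h01 : (0 : ZMod p) ≠ 1 := by
    have : Fact (1 < p) := ⟨by omega⟩
    exact zero_ne_one
  refine ⟨mx_sq g h, hne, mx_c02 g h, mx_c03 g h, mx_c13 g h, ?_, ?_, ?_, ?_, ?_, ?_⟩
  · intro he
    have h3 : (sr 0 : DihedralGroup p) = sr 1 := congrArg (fun x => x.2.1) he
    exact h01 (sr.inj h3)
  · intro he
    have h3 : (sr 1 : DihedralGroup p) = 1 := congrArg (fun x => x.2.1) he
    cases h3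
  · intro he
    have h3 : (sr 1 : DihedralGroup p) = sr 0 := congrArg (fun x => x.2.2) he
    exact h01 (sr.inj h3).symm
  · intro x hA hB
    have i012 : ∀ f : Fin 4 → G × (DihedralGroup p × DihedralGroup p),
        ({f 0, f 1, f 2} : Set _) = f '' {0, 1, 2} := by
      intro f
      rw [Set.image_insert_eq, Set.image_insert_eq, Set.image_singleton]
    have hs := h.sgn
    obtain ⟨χ, hχ⟩ := hs
    have hsx : χ x.1 * dsgn p x.2.1 * dsgn p x.2.2 = 1 := by
      refine mx_sgn g h χ hχ ?_ hA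
      rintro s (rfl | rfl | rfl)
      · exact ⟨0, rfl⟩
      · exact ⟨1, rfl⟩
      · exact ⟨2, rfl⟩
    have hb := mx_snd_A g h hA
    have ha := mx_snd_B g h hB
    have h1A : x.1 ∈ closure ({g 0, g 1, g 2} : Set G) := by
      have := mx_fst (p := p) g {0, 1, 2} (x := x) (by
        rw [Set.image_insert_eq, Set.image_insert_eq, Set.image_singleton]; exact hA)
      rw [Set.image_insert_eq, Set.image_insert_eq, Set.image_singleton] at this
      exact this
    have h1B : x.1 ∈ closure ({g 1, g 2, g 3} : Set G) := by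
      have := mx_fst (p := p) g {1, 2, 3} (x := x) (by
        rw [Set.image_insert_eq, Set.image_insert_eq, Set.image_singleton]; exact hB)
      rw [Set.image_insert_eq, Set.image_insert_eq, Set.image_singleton] at this
      exact this
    have h1 := h.mid _ h1A h1B
    obtain ⟨y, hy, hyx⟩ := mx_lift (p := p) g {1, 2} (x := x.1) (by
      rw [Set.image_insert_eq, Set.image_singleton]; exact h1)
    rw [Set.image_insert_eq, Set.image_singleton] at hy
    have hsub : ∀ w, w ∈ closure ({mx g p 1, mx g p 2} : Set _) →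
        w ∈ closure ({mx g p 0, mx g p 1, mx g p 2} : Set _) := fun w hw =>
      closure_mono (by intro z hz; simp only [Set.mem_insert_iff, Set.mem_singleton_iff] at hz ⊢; tauto) hw
    have hsub' : ∀ w, w ∈ closure ({mx g p 1, mx g p 2} : Set _) →
        w ∈ closure ({mx g p 1, mx g p 2, mx g p 3} : Set _) := fun w hw =>
      closure_mono (by intro z hz; simp only [Set.mem_insert_iff, Set.mem_singleton_iff] at hz ⊢; tauto) hw
    have hyb := mx_snd_A g h (hsub y hy)
    have hya := mx_snd_B g h (hsub' y hy)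
    have hsy : χ y.1 * dsgn p y.2.1 * dsgn p y.2.2 = 1 := by
      refine mx_sgn g h χ hχ ?_ hy
      rintro s (rfl | rfl)
      · exact ⟨1, rfl⟩
      · exact ⟨2, rfl⟩
    -- the central element
    obtain ⟨k, hk⟩ := hm
    have ht : (1, (sr 1, sr 1)) ∈ closure ({mx g p 1, mx g p 2} : Set _) := by
      have h2 : (mx g p 1 * mx g p 2) ^ m = (1, (sr 1, sr 1)) := by
        have h3 : mx g p 1 * mx g p 2 = (g 1 * g 2, (sr 1, sr 1)) := by
          rw [mx, mx, Prod.mk_mul_mk]
          simp [dd]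
        have h4 : (g 1 * g 2) ^ m = 1 := by rw [← h.ord12]; exact pow_orderOf_eq_one _
        have h5 : (sr 1 : DihedralGroup p) ^ m = sr 1 := by
          rw [hk, pow_add, pow_mul, pow_two, sr_mul_self, one_pow, one_mul, pow_one]
        rw [h3]
        change ((g 1 * g 2) ^ m, ((sr 1 : DihedralGroup p) ^ m, (sr 1 : DihedralGroup p) ^ m)) = _
        rw [h4, h5]
      rw [← h2]
      exact pow_mem (mul_mem (subset_closure (by simp)) (subset_closure (by simp))) m
    rw [hyx] at hsy
    have hcases : x = y ∨ x = (1, (sr 1, sr 1)) * y := by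
      have e1 : x.1 = y.1 := hyx.symm
      have hd : (dsgn p x.2.1 * dsgn p x.2.2) = (dsgn p y.2.1 * dsgn p y.2.2) := by
        rw [mul_assoc] at hsx hsy
        exact mul_left_cancel (hsx.trans hsy.symm)
      rcases ha with ha | ha <;> rcases hb with hb | hb <;> rcases hya with hya | hya <;>
        rcases hyb with hyb | hyb <;> rw [ha, hb, hya, hyb] at hd <;>
        simp only [dsgn_sr, dsgn_one, one_mul, mul_one, mul_neg, neg_neg] at hd <;>
        first
          | (left; exact Prod.ext e1 (Prod.ext (ha.trans hya.symm) (hb.trans hyb.symm)))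
          | (right
             refine Prod.ext ?_ (Prod.ext ?_ ?_)
             · change x.1 = 1 * y.1
               rw [one_mul, e1]
             · change x.2.1 = sr 1 * y.2.1
               rw [ha, hya]
               simp
             · change x.2.2 = sr 1 * y.2.2
               rw [hb, hyb]
               simp)
          | exact absurd hd (by decide)
    rcases hcases with hc | hc
    · rw [hc]; exact hy
    · rw [hc]; exact mul_mem ht hy
  · intro x h1 h2
    have hsub' : x ∈ closure ({mx g p 1, mx g p 2, mx g p 3} : Set _) :=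
      closure_mono (by intro z hz; simp only [Set.mem_insert_iff, Set.mem_singleton_iff] at hz ⊢; tauto) h2
    rcases mx_snd_B g h hsub' with ha | ha
    · left
      exact mx_inj01 g h h1 ha
    · right
      have h3 : x * mx g p 1 = 1 := by
        apply mx_inj01 g h (mul_mem h1 (subset_closure (by simp)))
        change x.2.1 * sr 1 = 1
        rw [ha]
        simp
      calc x = x * mx g p 1 * mx g p 1 := by rw [mul_assoc, mx_sq g h, mul_one]
        _ = mx g p 1 := by rw [h3, one_mul]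
  · intro x h1 h2
    have hsub : x ∈ closure ({mx g p 0, mx g p 1, mx g p 2} : Set _) :=
      closure_mono (by intro z hz; simp only [Set.mem_insert_iff, Set.mem_singleton_iff] at hz ⊢; tauto) h2
    rcases mx_snd_A g h hsub with ha | ha
    · left
      exact mx_inj23 g h hp' h1 ha
    · right
      have h3 : x * mx g p 2 = 1 := by
        apply mx_inj23 g h hp' (mul_mem h1 (subset_closure (by simp)))
        change x.2.2 * sr 1 = 1
        rw [ha]
        simp
      calc x = x * mx g p 2 * mx g p 2 := by rw [mul_assoc, mx_sq g h, mul_one]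
        _ = mx g p 2 := by rw [h3, one_mul]

theorem mx_order01 (hp2 : 2 ≤ p) (h : MixData p m g) : orderOf (mx g p 0 * mx g p 1) = p := by
  have h1 : mx g p 0 * mx g p 1 = (g 0 * g 1, (r 1, 1)) := by
    rw [mx, mx, Prod.mk_mul_mk]
    simp [dd]
  have : NeZero p := ⟨by omega⟩
  rw [h1, Prod.orderOf_mk, Prod.orderOf_mk, orderOf_one, orderOf_r_one, Nat.lcm_one_right]
  exact Nat.lcm_eq_right (orderOf_dvd_of_pow_eq_one h.pow01)

theorem mx_order12 (hm : Odd m) (h : MixData p m g) :
    orderOf (mx g p 1 * mx g p 2) = 2 * m := by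
  have h1 : mx g p 1 * mx g p 2 = (g 1 * g 2, (sr 1, sr 1)) := by
    rw [mx, mx, Prod.mk_mul_mk]
    simp [dd]
  rw [h1, Prod.orderOf_mk, Prod.orderOf_mk, orderOf_sr, Nat.lcm_self, h.ord12]
  have hc : Nat.Coprime m 2 := hm.coprime_two_right
  rw [hc.lcm_eq_mul, mul_comm]

/-- the mixed string C-group -/
theorem mix_exists [Finite G] (hp2 : 2 ≤ p) (hm : Odd m) (h : MixData p m g)
    (δ : G ≃* G) (hδ : ∀ i, δ (g i) = g i.rev) :
    ∃ (G : Type) (_ : Group G) (_ : Finite G) (s : Fin 4 → G),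
      IsStringC s ∧ HasType s p (2 * m) p ∧ IsSelfDual s := by
  have : NeZero p := ⟨by omega⟩
  have hp' : (g 2 * g 3) ^ p = 1 := by
    have h1 : δ (g 0 * g 1) = (g 2 * g 3)⁻¹ := by
      rw [map_mul, hδ, hδ, mul_inv_rev]
      have i2 : (g 2)⁻¹ = g 2 := inv_eq_of_mul_eq_one_left (h.sq 2)
      have i3 : (g 3)⁻¹ = g 3 := inv_eq_of_mul_eq_one_left (h.sq 3)
      rw [i2, i3]
      rfl
    have h2 : δ ((g 0 * g 1) ^ p) = 1 := by rw [h.pow01, map_one]
    rw [map_pow, h1, inv_pow, inv_eq_one] at h2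
    exact h2
  refine (mx_core g hp2 hm h hp').exists_stringC
    (MulEquiv.prodCongr δ MulEquiv.prodComm) ?_ (mx_order01 g hp2 h) (mx_order12 g hm h)
  intro i
  have h1 : (MulEquiv.prodCongr δ (MulEquiv.prodComm (M := DihedralGroup p)
      (N := DihedralGroup p))) (mx g p i) = (δ (g i), ((dd p i).2, (dd p i).1)) := rfl
  rw [h1, hδ]
  fin_cases i <;> rfl

end Mix

/-- the types with odd `p` and `q` twice an odd number -/
theorem exists_mixed {p m : ℕ} (hp : 3 ≤ p) (hodd : Odd p) (hm : Odd m) :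
    ∃ (G : Type) (_ : Group G) (_ : Finite G) (s : Fin 4 → G),
      IsStringC s ∧ HasType s p (2 * m) p ∧ IsSelfDual s := by
  rcases Nat.lt_or_ge m 3 with h3 | h3
  · have hm1 : m = 1 := by
      obtain ⟨k, hk⟩ := hm
      omega
    subst hm1
    refine mix_exists (fun _ : Fin 4 => (-1 : ℤˣ)) (by omega) hm ?_ (MulEquiv.refl _) (fun _ => rfl)
    refine ⟨fun _ => by decide, rfl, rfl, rfl, ?_, ?_, ?_, ⟨MonoidHom.id _, fun _ => rfl⟩⟩
    · intro x _ _
      rcases Int.units_eq_one_or x with h | h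
      · rw [h]; exact one_mem _
      · rw [h]; exact subset_closure (by simp)
    · simp
    · simp
  · obtain ⟨⟨D⟩, hfin, h1⟩ := exists_linData m p h3 (Or.inl hm) hp hodd
    have hc := D.core (by omega) h1
    refine mix_exists D.r (by omega) hm ?_ D.delta D.delta_r
    exact ⟨hc.sq, hc.c02, hc.c03, hc.c13, hc.mid, D.pow_p (by omega), D.orderOf_12 (by omega),
      ⟨MonoidHom.snd _ _, fun _ => rfl⟩⟩

end Pool.Agent.Lib.MP_4f2bc5_co
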