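import Pool.Agent.Lib.MP_4f2bc5_co.Linear4

/-!
# The concrete rings for the linear construction
-/

set_option autoImplicit false

namespace Pool.Agent.Lib.MP_4f2bc5_co

open Polynomial TensorProduct

theorem sum_even {L : Type} [CommRing L] (z : L) (n : ℕ) :
    (1 + z) * ∑ j ∈ Finset.range n, (z ^ 2) ^ j = ∑ j ∈ Finset.range (2 * n), z ^ j := by
  induction n with
  | zero => simp
  | succ n ih =>
    rw [Finset.sum_range_succ, mul_add, ih, show 2 * (n + 1) = 2 * n + 1 + 1 by ring,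
      Finset.sum_range_succ, Finset.sum_range_succ]
    ring

section Ring

variable (N p : ℕ)

/-- the polynomial `1 + X + ... + X^(p-1)` -/
noncomputable def fpol : (ZMod N)[X] := ∑ j ∈ Finset.range p, X ^ j

theorem fpol_monic (hp : 3 ≤ p) : (fpol N p).Monic := monic_geom_sum_X (by omega)

theorem fpol_natDegree (hN : 2 ≤ N) (hp : 3 ≤ p) : (fpol N p).natDegree = p - 1 := by
  have : Fact (1 < N) := ⟨by omega⟩
  have h1 : fpol N p * (X - 1) = X ^ p - 1 := geom_sum_mul X p
  have h2 := congrArg natDegree h1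
  have h3 : (X - 1 : (ZMod N)[X]).Monic := monic_X_sub_C 1
  rw [(fpol_monic N p hp).natDegree_mul h3] at h2
  have h4 : (X - 1 : (ZMod N)[X]).natDegree = 1 := natDegree_X_sub_C 1
  have h5 : (X ^ p - 1 : (ZMod N)[X]).natDegree = p := natDegree_X_pow_sub_C (n := p) (r := (1 : ZMod N))
  rw [h4, h5] at h2
  omega

/-- the small ring -/
abbrev LR : Type := AdjoinRoot (fpol N p)

/-- the big ring -/
abbrev SR : Type := LR N p ⊗[ZMod N] LR N p

/-- the root -/
noncomputable def zR : LR N p := AdjoinRoot.root (fpol N p)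

theorem zR_sum : ∑ j ∈ Finset.range p, zR N p ^ j = 0 := by
  have h1 : AdjoinRoot.mk (fpol N p) (fpol N p) = 0 := AdjoinRoot.mk_self
  have h2 : AdjoinRoot.mk (fpol N p) (∑ j ∈ Finset.range p, X ^ j) = 0 := h1
  rw [map_sum] at h2
  simp only [map_pow, AdjoinRoot.mk_X] at h2
  exact h2

theorem zR_pow : zR N p ^ p = 1 := by
  have h := geom_sum_mul (zR N p) p
  rw [zR_sum, zero_mul] at h
  exact (sub_eq_zero.1 h.symm)

/-- the basis -/
theorem exists_basis (hN : 2 ≤ N) (hp : 3 ≤ p) :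
    ∃ b : Module.Basis (Fin (p - 1)) (ZMod N) (LR N p), ∀ i, b i = zR N p ^ (i : ℕ) := by
  have h1 : (AdjoinRoot.powerBasis' (fpol_monic N p hp)).dim = p - 1 := fpol_natDegree N p hN hp
  refine ⟨(AdjoinRoot.powerBasis' (fpol_monic N p hp)).basis.reindex (finCongr h1), fun i => ?_⟩
  rw [Module.Basis.reindex_apply, PowerBasis.basis_eq_pow]
  rfl

theorem zR_ord (hN : 2 ≤ N) (hp : 3 ≤ p) (k : ℕ) (h : zR N p ^ k = 1) : p ∣ k := by
  have : Fact (1 < N) := ⟨by omega⟩
  obtain ⟨b, hb⟩ := exists_basis N p hN hp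
  have h1 : zR N p ^ (k % p) = 1 := by
    have h2 : zR N p ^ (k % p + p * (k / p)) = 1 := by rw [Nat.mod_add_div]; exact h
    rw [pow_add, pow_mul, zR_pow, one_pow, mul_one] at h2
    exact h2
  by_contra hcon
  have hg0 : k % p ≠ 0 := fun h0 => hcon (Nat.dvd_of_mod_eq_zero h0)
  have hgp : k % p < p := Nat.mod_lt _ (by omega)
  have b0 : b ⟨0, by omega⟩ = 1 := by rw [hb]; exact pow_zero _
  rcases Nat.lt_or_ge (k % p) (p - 1) with h3 | h3
  · have h4 : b ⟨k % p, h3⟩ = b ⟨0, by omega⟩ := by rw [hb, b0]; exact h1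
    have h5 := b.injective h4
    exact hg0 (congrArg Fin.val h5)
  · have h4 : k % p = p - 1 := by omega
    rw [h4] at h1
    have h5 : zR N p = 1 := by
      have h6 := zR_pow N p
      rw [show p = p - 1 + 1 by omega, pow_succ] at h6
      rw [← show p = p - 1 + 1 by omega, h1, one_mul] at h6
      exact h6
    have h6 : b ⟨1, by omega⟩ = b ⟨0, by omega⟩ := by rw [hb, b0]; exact (pow_one _).trans h5
    have h7 := congrArg Fin.val (b.injective h6)
    exact absurd h7 (by simp)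

theorem finite_LR (hN : 2 ≤ N) (hp : 3 ≤ p) : Module.Finite (ZMod N) (LR N p) := by
  obtain ⟨b, -⟩ := exists_basis N p hN hp
  exact Module.Finite.of_basis b

/-- the ring data exist -/
theorem exists_linData (hN : 3 ≤ N) (hN' : Odd N ∨ 4 ∣ N) (hp : 3 ≤ p) (hodd : Odd p) :
    Nonempty (LinData N p (LR N p) (SR N p)) ∧ Finite (SR N p) ∧ (1 : SR N p) ≠ 0 := by
  have : Fact (1 < N) := ⟨by omega⟩
  have hNz : NeZero N := ⟨by omega⟩
  have hfin := finite_LR N p (by omega) hp
  obtain ⟨b, hb⟩ := exists_basis N p (by omega) hp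
  have b0 : b ⟨0, by omega⟩ = 1 := by rw [hb]; exact pow_zero _
  obtain ⟨φ, hφ⟩ : ∃ φ : LR N p →ₗ[ZMod N] ZMod N, φ 1 = 1 := by
    refine ⟨b.coord ⟨0, by omega⟩, ?_⟩
    rw [← b0]
    simp
  have hφc : ∀ c : ZMod N, φ (algebraMap (ZMod N) (LR N p) c) = c := by
    intro c
    rw [Algebra.algebraMap_eq_smul_one, map_smul, hφ, smul_eq_mul, mul_one]
  -- the retraction
  obtain ⟨π, hπ1, hπ2⟩ : ∃ π : SR N p →ₗ[ZMod N] LR N p, (∀ a, π (a ⊗ₜ 1) = a) ∧
      ∀ b, π (1 ⊗ₜ b) = algebraMap (ZMod N) (LR N p) (φ b) := by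
    refine ⟨(TensorProduct.rid (ZMod N) (LR N p)).toLinearMap ∘ₗ
      (LinearMap.lTensor (LR N p) φ), ?_, ?_⟩
    · intro a
      simp [hφ]
    · intro b
      rw [Algebra.algebraMap_eq_smul_one]
      simp
  have hval : ∀ c : ZMod N, algebraMap (ZMod N) (LR N p) c = ((c.val : ℕ) : LR N p) := by
    intro c
    rw [← map_natCast (algebraMap (ZMod N) (LR N p)), ZMod.natCast_zmod_val]
  obtain ⟨i1, hi1⟩ : ∃ i1 : LR N p →+* SR N p, ∀ a, i1 a = a ⊗ₜ 1 :=
    ⟨(Algebra.TensorProduct.includeLeft : LR N p →ₐ[ZMod N] SR N p).toRingHom, fun a => rfl⟩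
  obtain ⟨i2, hi2⟩ : ∃ i2 : LR N p →+* SR N p, ∀ a, i2 a = 1 ⊗ₜ a :=
    ⟨(Algebra.TensorProduct.includeRight : LR N p →ₐ[ZMod N] SR N p).toRingHom, fun a => rfl⟩
  obtain ⟨σ, hσ⟩ : ∃ σ : SR N p ≃+* SR N p, ∀ a b, σ (a ⊗ₜ b) = b ⊗ₜ a :=
    ⟨(Algebra.TensorProduct.comm (ZMod N) (LR N p) (LR N p)).toRingEquiv, fun a b => rfl⟩
  have σ1 : ∀ a, σ (i1 a) = i2 a := fun a => by rw [hi1, hi2, hσ]
  have σ2 : ∀ a, σ (i2 a) = i1 a := fun a => by rw [hi1, hi2, hσ]
  have inj1 : Function.Injective i1 := by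
    intro a a' h
    rw [← hπ1 a, ← hπ1 a', ← hi1, ← hi1, h]
  have inj2 : Function.Injective i2 := by
    intro a a' h
    apply inj1
    rw [← σ2, ← σ2, h]
  have inter : ∀ a b, i1 a = i2 b → ∃ n : ℕ, a = n ∧ b = n := by
    intro a b h
    have h1 : a = ((φ b).val : ℕ) := by
      rw [← hπ1 a, ← hi1, h, hi2, hπ2, hval]
    refine ⟨(φ b).val, h1, ?_⟩
    apply inj2
    rw [← h, h1, map_natCast, map_natCast]
  have hcharL : ∀ n : ℕ, ((n : LR N p) = 0 ↔ N ∣ n) := by
    intro n
    rw [← ZMod.natCast_eq_zero_iff]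
    constructor
    · intro h
      rw [← map_natCast (algebraMap (ZMod N) (LR N p))] at h
      rw [← hφc (n : ZMod N), h, map_zero]
    · intro h
      rw [← map_natCast (algebraMap (ZMod N) (LR N p)), h, map_zero]
  have hchar : ∀ n : ℕ, ((n : SR N p) = 0 ↔ N ∣ n) := by
    intro n
    rw [← hcharL, ← map_natCast i1]
    exact map_eq_zero_iff i1 inj1
  have half : ∀ (e : LR N p) (n : ℤ), 2 * e = n → ∃ k : ℕ, 2 * e = 2 * (k : LR N p) := by
    intro e n h
    refine ⟨(φ e).val, ?_⟩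
    have h1 : (2 : ZMod N) * φ e = (n : ZMod N) := by
      have h2 := congrArg φ h
      rw [← map_intCast (algebraMap (ZMod N) (LR N p)), hφc] at h2
      have h3 : (2 : LR N p) * e = (2 : ZMod N) • e := by
        rw [Algebra.smul_def, map_ofNat]
      rw [h3, map_smul, smul_eq_mul] at h2
      exact h2
    rw [h, ← hval, ← map_intCast (algebraMap (ZMod N) (LR N p)), ← h1, map_mul, map_ofNat]
  have sqz : ∀ a : LR N p, 2 * a = 0 → a * a = 0 := by
    intro a ha
    rcases hN' with h | h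
    · obtain ⟨k, hk⟩ := h
      have h1 : ((2 * k + 1 : ℕ) : LR N p) = 0 := (hcharL _).2 (by rw [← hk])
      push_cast at h1
      have h2 : a = 0 := by linear_combination a * h1 - (k : LR N p) * ha
      rw [h2, mul_zero]
    · obtain ⟨M, hM⟩ := h
      have h1 : ∃ c, a = (2 * M : LR N p) * c := by
        have h2 : ∀ i, ∃ d : ZMod N, b.repr a i = (2 * M : ZMod N) * d := by
          intro i
          have h3 : (2 : ZMod N) * b.repr a i = 0 := by
            have h4 : (2 : LR N p) * a = (2 : ZMod N) • a := by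
              rw [Algebra.smul_def, map_ofNat]
            rw [h4] at ha
            have h5 := congrArg (fun x => b.repr x i) ha
            simpa using h5
          have h6 : ((2 * (b.repr a i).val : ℕ) : ZMod N) = 0 := by
            push_cast
            rw [ZMod.natCast_zmod_val]
            exact h3
          rw [ZMod.natCast_eq_zero_iff] at h6
          obtain ⟨d, hd⟩ := h6
          refine ⟨d, ?_⟩
          have h7 : (b.repr a i).val = 2 * M * d := by
            have : 2 * (b.repr a i).val = 2 * (2 * M * d) := by rw [hd, hM]; ring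
            omega
          rw [← ZMod.natCast_zmod_val (b.repr a i), h7]
          push_cast
          ring
        choose d hd using h2
        refine ⟨∑ i, d i • b i, ?_⟩
        rw [Finset.mul_sum]
        conv_lhs => rw [← b.sum_repr a]
        apply Finset.sum_congr rfl
        intro i _
        rw [hd, Algebra.smul_def, Algebra.smul_def, map_mul, map_mul, map_ofNat, map_natCast]
        ring
      obtain ⟨c, hc⟩ := h1
      have h2 : ((4 * M : ℕ) : LR N p) = 0 := (hcharL _).2 (by rw [← hM])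
      push_cast at h2
      rw [hc]
      linear_combination (M : LR N p) * c * c * h2
  have hzw : zR N p * zR N p ^ (p - 1) = 1 := by
    rw [← pow_succ', show p - 1 + 1 = p by omega, zR_pow]
  obtain ⟨h, hh⟩ := hodd
  have hzv : (1 + zR N p) * (-(zR N p * ∑ j ∈ Finset.range h, (zR N p ^ 2) ^ j)) = 1 := by
    have h1 := sum_even (zR N p) h
    have h2 : zR N p * ∑ j ∈ Finset.range (2 * h), zR N p ^ j + 1 = 0 := by
      rw [← geom_sum_succ, ← hh, zR_sum]
    linear_combination (-(zR N p)) * h1 - h2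
  refine ⟨⟨⟨i1, i2, inj1, inj2, inter, half, sqz, hchar, σ, σ1, σ2, zR N p, zR N p ^ (p - 1), hzw,
    zR_pow N p, zR_sum N p, _, hzv, zR_ord N p (by omega) hp⟩⟩, ?_, ?_⟩
  · exact Module.finite_of_finite (ZMod N)
  · intro h1
    have h2 : ((1 : ℕ) : SR N p) = 0 := by rw [Nat.cast_one, h1]
    have h3 := Nat.le_of_dvd one_pos ((hchar 1).1 h2)
    omega

end Ring

/-- the types with odd `p` and `q` odd or divisible by four -/
theorem exists_linear {p q : ℕ} (hp : 3 ≤ p) (hodd : Odd p) (hq : 3 ≤ q) (hq' : Odd q ∨ 4 ∣ q) :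
    ∃ (G : Type) (_ : Group G) (_ : Finite G) (s : Fin 4 → G),
      IsStringC s ∧ HasType s p q p ∧ IsSelfDual s := by
  obtain ⟨⟨D⟩, hfin, h1⟩ := exists_linData q p hq hq' hp hodd
  exact (D.core (by omega) h1).exists_stringC D.delta D.delta_r (D.orderOf_01 (by omega))
    (D.orderOf_12 (by omega))

end Pool.Agent.Lib.MP_4f2bc5_co
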